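import Pool.Agent.V8H90.LG.Var

/-!
Subvarieties of quasi-projective varieties over projective space, ramified over the members of a
good arrangement, are of log general type.
-/

set_option autoImplicit false

namespace Pool.Agent.V8H90.LG

open FF MvPolynomial Pool.Agent.W602.GT Pool.Agent.V8H90.AJ Pool.Agent.W601.SM Pool.Agent.W601.PH
open Pool.Agent.Y191 (RF exists_base)

variable {N n : ℕ} {K : Type} [Field K] [Algebra ℂ K]

theorem tan_of_log {P : Place ℂ K} {D : Derivation ℂ K K} (h : DerLog P D) : Tan P D := by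
  intro f hf
  have h1 := (h f)
  have h2 : GO P 0 (D f / f) := GO.reg h1
  have h3 : GO P (P.ord f) f := Or.inr le_rfl
  have h4 := h2.mul h3
  rwa [div_mul_cancel₀ _ hf, zero_add] at h4

/-- **Logarithmic general type.** -/
theorem log_gt {q q0 d M b0 w : ℕ} (hnd : n + 1 ≤ d) (hdq : d < q0) (hb1 : 1 ≤ b0)
    (hb0 : b0 + d * (M + 1) = M * q0) (hq : n + 1 ≤ q) {ℓ : Fin q → Fin (n + 1) → ℂ}
    (hℓ : GA d q0 n q ℓ) {X D : BiSet N n} (hR : ∀ i, RamAt (M + 1) (ℓ i) X D)
    {z : Fin (N + 1) → K} {b : Fin (n + 1) → K} (h : ∀ P ∈ X.I, evK z b P = 0) (hb : b ≠ 0)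
    (hw : 1 ≤ w) (hK : Algebra.trdeg ℂ K = w) (halg : Algebra.IsAlgebraic (RF ℂ b) K) :
    LogGeneralType ℂ K w fun P => ¬ Centred D P z b := by
  obtain ⟨q, rfl⟩ : ∃ q', q = q' + 1 := ⟨q - 1, by omega⟩
  have htr : Algebra.trdeg ℂ (RF ℂ b) = w := by
    have h1 := trdeg_add_eq ℂ (RF ℂ b) (A := K)
    rw [trdeg_eq_zero_iff.mpr halg, add_zero] at h1
    rw [h1, hK]
  have hbot : RF ℂ b ≠ ⊥ := by
    intro h0
    rw [h0] at htr
    have h1 : Algebra.trdeg ℂ (⊥ : IntermediateField ℂ K) = 0 := by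
      rw [trdeg_eq_zero_iff]
      infer_instance
    rw [h1] at htr
    have : (0 : ℕ) = w := by exact_mod_cast htr
    omega
  have hb' : ∃ j, b j ≠ 0 := by
    by_contra hcon
    push Not at hcon
    exact hb (funext hcon)
  obtain ⟨n', N', ℓ', b', h1, h2, h3, h4, h5, h6, h7⟩ := strata n q (by omega) ℓ hℓ b hb' hbot
  rw [← h6] at htr
  obtain ⟨σ, hσ0, hind, -⟩ := exists_base h5 htr
  obtain ⟨L, hL, ω, g1, g2, g3, E, g4, g5⟩ := main h3 (by omega) hdq hb1 hb0 hw
    (K := K) (u := b') (j1 := σ 0) hσ0 (J := fun j => σ j.succ) hind h4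
  refine ⟨hK, L, hL, ω, g1, fun P _ j F hF => ?_, fun P _ hP j F hF => ?_, E, g4, g5⟩
  · exact (g3 P j F fun i => tan_of_log (hF i)).toReg
  · rw [not_not] at hP
    have hmu : ∀ i, Mu P (M + 1) (ℓ' i) b' := h7 P (M + 1) fun i => mult h (hR i) hP
    classical
    obtain ⟨j0, hj0, hmin⟩ := Finset.exists_min_image (Finset.univ.filter fun j => b' j ≠ 0)
      (fun j => P.ord (b' j)) ⟨σ 0, by simpa using hσ0⟩
    have hj0' : b' j0 ≠ 0 := by simpa using hj0
    have hmin' : ∀ j, b' j = 0 ∨ P.ord (b' j0) ≤ P.ord (b' j) := by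
      intro j
      by_cases hj : b' j = 0
      · exact Or.inl hj
      · exact Or.inr (hmin j (by simpa using hj))
    have h8 := g2 P j0 hj0' hmin' 0 le_rfl (fun i => by
      rcases hmu i j0 hj0' hmin' with h9 | h9 | h9
      · exact absurd h9 (h4 i)
      · exact Or.inl h9
      · right
        have h10 : ((M : ℝ) + 1) ≤ (P.ord (lf (ℓ' i) b') : ℝ) - P.ord (b' j0) := by
          have h11 : ((P.ord (b' j0) : ℝ) + ((M : ℝ) + 1)) ≤ (P.ord (lf (ℓ' i) b') : ℝ) := by
            exact_mod_cast h9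
          linarith
        linarith) j F hF
    rw [mul_zero, neg_zero] at h8
    exact h8.toReg

end Pool.Agent.V8H90.LG
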