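import Pool.Agent.V8H90.LG.Arr

/-!
Entire curves which are ramified over the members of a good arrangement of hyperplanes.
-/

set_option autoImplicit false

namespace Pool.Agent.V8H90.LG

open MvPolynomial Filter Metric Real Set Topology Pool.Agent.H159R3.NV Pool.Agent.W602.NC
  Pool.Agent.W602.TL Pool.Agent.W601.SM Pool.Agent.V8H90.JT Pool.Agent.V8H90.AJ

variable {n : ℕ}

theorem mi_of_indep {p : Fin 2 → Fin (n + 1) → ℂ} (h : LinearIndependent ℂ p) : Mi p := by
  by_contra hcon
  unfold Mi at hcon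
  push Not at hcon
  rw [Fintype.linearIndependent_iff] at h
  have h2 : ∀ i, p 0 i = 0 := by
    intro i
    have h1 := h (fun c => if c = 0 then p 1 i else -p 0 i) (by
      funext j
      rw [Fin.sum_univ_two]
      simp only [Pi.add_apply, Pi.smul_apply, smul_eq_mul, Pi.zero_apply, if_true,
        Fin.one_eq_zero_iff]
      norm_num
      linear_combination -hcon i j) 1
    simpa using h1
  have h3 := h (fun c => if c = 0 then 1 else 0) (by
    funext j
    rw [Fin.sum_univ_two]
    simp [h2 j]) 0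
  simp at h3

theorem no_curve1 {N q0 d m : ℕ} (hnN : n ≤ N) (hnd : n + 1 ≤ d)
    (hnum : d * m + 1 * q0 < m * q0) {ℓ : Fin (N + 1) → Fin (n + 1) → ℂ}
    (hG : Good ℓ d q0) {F : ℂ → Fin (n + 1) → ℂ} (hF : Ent F)
    (hnz : ∀ z, F z ≠ 0) (hne : ∀ i, ∃ z, UU ℓ F i z ≠ 0) (W : Fin (1 + 1) → Fin (n + 1))
    (hW : ∀ c : Fin (1 + 1) → ℂ, (∀ z, ∑ b, c b * F z (W b) = 0) → c = 0)
    (hm : ∀ (i : Fin (N + 1)) (z : ℂ) (a : ℕ), analyticOrderAt (UU ℓ F i) z = a →
      a = 0 ∨ m ≤ a) : False := by
  classical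
  have hdq : d < q0 := by
    by_contra hcon
    push Not at hcon
    have := Nat.mul_le_mul_left m hcon
    rw [mul_comm d m] at hnum
    omega
  obtain ⟨p, rfl⟩ : ∃ p, q0 = p + 1 := ⟨q0 - 1, by omega⟩
  have hnp : n ≤ p := by omega
  have hgp : GP ℓ := hG.1
  obtain ⟨j1, hj1⟩ := exists_ratio le_rfl hnN hgp W hW
  -- the Wronskian
  set P : ℂ → ℂ := fun z => (Matrix.of fun b l : Fin (1 + 1) =>
    th1^[(l : ℕ)] (fun w => F w (W b)) z).det with hPd
  have hPdiff : Differentiable ℂ P := det_diff _ fun b l => th1_iter_diff (hF (W b)) l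
  obtain ⟨zw, hzw⟩ : ∃ z, P z ≠ 0 := by
    obtain ⟨z, hz⟩ := wron_ne (fun (b : Fin (1 + 1)) z => F (ex 0 z) (W b))
      (fun b => (hF (W b)).comp (ex_diff 0)) (by
        intro c hc
        apply hW
        have hd : Differentiable ℂ fun z => ∑ b, c b * F z (W b) :=
          Differentiable.fun_sum fun b _ => (hF (W b)).const_mul _
        apply zero_of_punctured hd
        intro w hw
        have := hc (Complex.log w)
        simp only [ex, add_zero, Complex.exp_log hw] at this
        exact this)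
    refine ⟨ex 0 z, ?_⟩
    have e : (Matrix.of fun b l : Fin (1 + 1) => th1^[(l : ℕ)] (fun w => F w (W b)) (ex 0 z)) =
        Matrix.of fun b l : Fin (1 + 1) => iteratedDeriv l (fun z => F (ex 0 z) (W b)) z := by
      ext b l
      rw [Matrix.of_apply, Matrix.of_apply, iter_ex (hF (W b)) 0 l]
    rw [hPd]
    simp only
    rw [e]
    exact hz
  refine contra (UU ℓ F) (UU_diff ℓ hF) hne j1 hj1 hPdiff ⟨zw, hzw⟩ ?_
  intro z0 h0 hP0
  set F' : ℂ → Fin (n + 1) → ℂ := fun z => F (ex z0 z) with hF'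
  have hF'e : Ent F' := fun j => (hF j).comp (ex_diff z0)
  have hF'nz : ∀ z, F' z ≠ 0 := fun z => hnz _
  have hUF' : (fun i z => UU ℓ F i (ex z0 z)) = UU ℓ F' := rfl
  have hord : ∀ i z, analyticOrderAt (UU ℓ F' i) z = analyticOrderAt (UU ℓ F i) (ex z0 z) := by
    intro i z
    have e1 : UU ℓ F' i = UU ℓ F i ∘ ex z0 := rfl
    rw [e1, analyticOrderAt_comp_of_deriv_ne_zero ((ex_diff z0).analyticAt z)]
    rw [ex_deriv]
    exact ex_ne z0 z
  -- the jet
  set pj : Fin (1 + 1) × Fin (n + 1) → ℂ := fun y =>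
    PowerSeries.coeff (y.1 : ℕ) (J F' 0 y.2) with hpj
  have hind : LinearIndependent ℂ fun a : Fin (1 + 1) => fun j : Fin (n + 1) => pj (a, j) := by
    rw [Fintype.linearIndependent_iff]
    intro g hg
    have h3 : (Matrix.of fun b l : Fin (1 + 1) =>
        th1^[(l : ℕ)] (fun w => F w (W b)) (ex z0 0)).mulVec
        (fun a => g a / ((a : ℕ).factorial : ℂ)) = 0 := by
      funext b
      have h4 := congrFun hg (W b)
      rw [Finset.sum_apply] at h4
      rw [Matrix.mulVec, dotProduct, Pi.zero_apply]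
      rw [Pi.zero_apply] at h4
      refine Eq.trans (Finset.sum_congr rfl fun a _ => ?_) h4
      rw [Matrix.of_apply, Pi.smul_apply, smul_eq_mul, hpj]
      change _ = g a * PowerSeries.coeff (a : ℕ) (jet (fun w => F (ex z0 w) (W b)) 0)
      rw [coeff_jet, iter_ex (hF (W b)) z0 a]
      ring
    have h5 := Matrix.eq_zero_of_mulVec_eq_zero hP0 h3
    intro a
    have h6 := congrFun h5 a
    rw [Pi.zero_apply, div_eq_zero_iff] at h6
    exact h6.resolve_right (by exact_mod_cast (a : ℕ).factorial_ne_zero)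
  obtain ⟨s, R, hs, hR1, hR2, hR3, hR4⟩ := hG.2.2 (fun a j => pj (a, j)) (mi_of_indep hind)
  have hPP : PP R F' 0 ≠ 0 := hR4
  have hgps : GP fun i => ℓ (s i) := fun σ hσ => hG.1 (fun c => s (σ c)) (hs.comp hσ)
  obtain ⟨A, B, hA, hB, hAB⟩ := tau_bound hgps hnp hR1 hnd hR2 hR3 hnum hF'e hF'nz
    (fun i => h0 (s i)) hPP (fun i z a ha => hm (s i) (ex z0 z) a (by
      rw [← hord]
      exact ha))
  obtain ⟨D, hD1, hD⟩ := forms_bound hgp
  refine ⟨Real.log D + A, B, add_nonneg (Real.log_nonneg hD1) hA, hB, ?_⟩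
  intro t ε ht hε hε1 hgood
  have hsub : ∀ z, ‖z‖ = t → GoodAt (UU (fun i => ℓ (s i)) F') z ε := fun z hz =>
    ⟨fun i w hw => (hgood z hz).1 (s i) w hw, fun i j w hw => (hgood z hz).2 (s i) (s j) w hw⟩
  have h1 := hAB t ε ht hε hε1 hsub
  have h2 : tau (UU ℓ F') t ≤ Real.log D + tau (UU (fun i => ℓ (s i)) F') t := by
    refine tau_le_of_sup (UU_diff ℓ hF'e) (UU_diff _ hF'e) hD1 (fun z => ?_) ht
      (fun z hz => (hgood z hz).1 0 z (mem_closedBall_self hε.le))
      (fun z hz => (hsub z hz).1 0 z (mem_closedBall_self hε.le))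
    obtain ⟨i0, hi0⟩ := sup_attained (UU ℓ F') z
    rw [hi0]
    set σ : Fin (n + 1) → Fin (p + 1) := Fin.castLE (by omega) with hσ
    have hσi : Function.Injective σ := Fin.castLE_injective _
    exact hD (fun c => s (σ c)) (hs.comp hσi) (F' z) _
      (fun c => le_sup (UU (fun i => ℓ (s i)) F') z (σ c)) i0
  change tau (UU ℓ F') t ≤ _
  linarith


/-- curves which are not contained in a hyperplane of the arrangement -/
theorem const_of_ne1 {N q0 d m : ℕ} (hnN : n ≤ N) (hnd : n + 1 ≤ d)
    (hnum : d * m + 1 * q0 < m * q0) {ℓ : Fin (N + 1) → Fin (n + 1) → ℂ}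
    (hG : Good ℓ d q0) {F : ℂ → Fin (n + 1) → ℂ} (hF : Ent F)
    (hnz : ∀ z, F z ≠ 0) (hne : ∀ i, ∃ z, UU ℓ F i z ≠ 0) (hm : Mul m ℓ F) (z z' : ℂ) :
    ∃ t : ℂ, F z' = t • F z := by
  classical
  obtain ⟨κ, a, ha, hsp, hli⟩ := exists_linearIndependent' ℂ
    fun (j : Fin (n + 1)) (z : ℂ) => F z j
  have : Finite κ := Finite.of_injective a ha
  have := Fintype.ofFinite κ
  set e := Fintype.equivFin κ with he
  -- the coefficients
  have hco : ∀ j, ∃ c : κ → ℂ, ∀ z, F z j = ∑ b, c b * F z (a b) := by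
    intro j
    have h1 : (fun z : ℂ => F z j) ∈ Submodule.span ℂ (Set.range
        ((fun (j : Fin (n + 1)) (z : ℂ) => F z j) ∘ a)) := by
      rw [hsp]
      exact Submodule.subset_span ⟨j, rfl⟩
    obtain ⟨c, hc⟩ := (Submodule.mem_span_range_iff_exists_fun ℂ).mp h1
    refine ⟨c, fun z => ?_⟩
    have h2 := congrFun hc z
    rw [Finset.sum_apply] at h2
    exact h2.symm
  choose c hc using hco
  have hind : ∀ g : κ → ℂ, (∀ z, ∑ b, g b * F z (a b) = 0) → g = 0 := by
    intro g hg
    rw [Fintype.linearIndependent_iff] at hli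
    funext b
    refine hli g ?_ b
    funext z
    rw [Finset.sum_apply]
    exact hg z
  have hc' : ∀ b b', c (a b) b' = if b = b' then 1 else 0 := by
    intro b
    have h1 := hind (fun b' => c (a b) b' - if b = b' then 1 else 0) (by
      intro z
      simp only [sub_mul, Finset.sum_sub_distrib, ite_mul, one_mul, zero_mul,
        Finset.sum_ite_eq, Finset.mem_univ, if_true]
      rw [← hc, sub_self])
    intro b'
    exact sub_eq_zero.mp (congrFun h1 b')
  rcases Nat.lt_or_ge (Fintype.card κ) 2 with h2 | h2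
  · -- constant
    rcases Nat.lt_or_ge (Fintype.card κ) 1 with h1 | h1
    · exfalso
      apply hnz z
      funext j
      have : IsEmpty κ := Fintype.card_eq_zero_iff.mp (by omega)
      rw [hc j z]
      simp
    · obtain ⟨b, hb⟩ := Fintype.card_eq_one_iff.mp (by omega : Fintype.card κ = 1)
      have h3 : ∀ j z, F z j = c j b * F z (a b) := by
        intro j z
        rw [hc j z, Finset.sum_eq_single b (fun b' _ h => absurd (hb b') h) (by simp)]
      have h4 : F z (a b) ≠ 0 := by
        intro h0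
        apply hnz z
        funext j
        rw [h3, h0, mul_zero]
        rfl
      refine ⟨F z' (a b) / F z (a b), ?_⟩
      funext j
      rw [Pi.smul_apply, smul_eq_mul, h3 j z', h3 j z]
      field_simp
  · exfalso
    obtain ⟨r, hr⟩ : ∃ r, Fintype.card κ = r + 1 := ⟨Fintype.card κ - 1, by omega⟩
    have hr1 : 1 ≤ r := by omega
    have hrn : r + 1 ≤ n + 1 := by
      rw [← hr]
      simpa using Fintype.card_le_of_injective a ha
    set W : Fin (r + 1) → Fin (n + 1) := fun b => a (e.symm (Fin.cast hr.symm b)) with hWd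
    have hWi : ∀ g : Fin (r + 1) → ℂ, (∀ z, ∑ b, g b * F z (W b) = 0) → g = 0 := by
      intro g hg
      have h3 := hind (fun b => g (Fin.cast hr (e b))) (by
        intro z
        rw [← hg z]
        refine Fintype.sum_equiv (e.trans (finCongr hr)) _ _ fun b => ?_
        simp [hWd])
      funext b
      have h4 := congrFun h3 (e.symm (Fin.cast hr.symm b))
      simpa using h4
    refine no_curve1 hnN hnd hnum hG hF hnz hne
      (fun b => W (Fin.castLE (by omega) b)) (fun g hg => ?_) hm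
    have h3 := hWi (fun b => if h : (b : ℕ) < 1 + 1 then g ⟨b, h⟩ else 0) (by
      intro z
      refine Eq.trans ?_ (hg z)
      symm
      refine Finset.sum_of_injOn (Fin.castLE (by omega)) (Fin.castLE_injective _).injOn
        (fun _ _ => Finset.mem_coe.mpr (Finset.mem_univ _)) (fun b _ hb => ?_) fun b _ => ?_
      · rw [dif_neg, zero_mul]
        intro h
        apply hb
        exact ⟨⟨b, h⟩, Finset.mem_coe.mpr (Finset.mem_univ _), rfl⟩
      · rw [dif_pos (by
          rw [Fin.val_castLE]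
          exact b.2)]
        rfl)
    funext b
    have h4 := congrFun h3 (Fin.castLE (by omega) b)
    rw [dif_pos (by
      rw [Fin.val_castLE]
      exact b.2)] at h4
    exact h4

theorem rs_UU {N : ℕ} {ℓ : Fin (N + 1) → Fin (n + 2) → ℂ} {i : Fin (N + 1)}
    {F : ℂ → Fin (n + 2) → ℂ} (hi : ∀ z, UU ℓ F i z = 0) (a : Fin N) (z : ℂ) :
    UU (LG.rs ℓ i) (fun z j => F z j.succ) a z = ℓ i 0 * UU ℓ F (i.succAbove a) z := by
  have h := sum_rs (A := ℂ) (R := ℂ) ℓ i a (F z) (hi z)
  exact h

theorem order_smul {c : ℂ} (hc : c ≠ 0) (f : ℂ → ℂ) (z : ℂ) :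
    analyticOrderAt (fun w => c * f w) z = analyticOrderAt f z := by
  have h1 : (fun w => c * f w) = (fun _ => c) * f := rfl
  by_cases hf : AnalyticAt ℂ f z
  · rw [h1, analyticOrderAt_mul analyticAt_const hf]
    have h2 : analyticOrderAt (fun _ : ℂ => c) z = 0 :=
      analyticAt_const.analyticOrderAt_eq_zero.mpr hc
    rw [h2, zero_add]
  · have hf' : ¬ AnalyticAt ℂ (fun w => c * f w) z := by
      intro h
      apply hf
      have h2 : f = fun w => c⁻¹ * (c * f w) := by
        funext w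
        rw [← mul_assoc, inv_mul_cancel₀ hc, one_mul]
      rw [h2]
      exact analyticAt_const.mul h
    rw [analyticOrderAt_of_not_analyticAt hf, analyticOrderAt_of_not_analyticAt hf']

/-- Curves which are ramified over the members of a good arrangement are constant. -/
theorem ga_const {q0 d m : ℕ} (hnum : d * m + 1 * q0 < m * q0) :
    ∀ (n N : ℕ), n + 1 ≤ d → q0 + 2 * (n + 1) ≤ N + 1 → ∀ ℓ : Fin (N + 1) → Fin (n + 1) → ℂ,
    GA d q0 n (N + 1) ℓ →
    ∀ F : ℂ → Fin (n + 1) → ℂ, Ent F → (∀ z, F z ≠ 0) → Mul m ℓ F → ∀ z z' : ℂ,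
      ∃ t : ℂ, F z' = t • F z := by
  intro n
  induction n with
  | zero =>
    intro N _ _ ℓ _ F _ hnz _ z z'
    have hs : ∀ j : Fin (0 + 1), j = 0 := fun j => Fin.ext (by omega)
    have h : F z 0 ≠ 0 := by
      intro h0
      apply hnz z
      funext j
      rw [hs j, h0]
      rfl
    refine ⟨F z' 0 / F z 0, ?_⟩
    funext j
    rw [hs j, Pi.smul_apply, smul_eq_mul]
    field_simp
  | succ n ih =>
    intro N hnd hq ℓ hℓ F hF hnz hm z z'
    by_cases hne : ∀ i, ∃ z, UU ℓ F i z ≠ 0
    · exact const_of_ne1 (by omega) hnd hnum hℓ.good hF hnz hne hm z z'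
    · push Not at hne
      obtain ⟨i, hi⟩ := hne
      obtain ⟨N', rfl⟩ : ∃ N', N = N' + 1 := ⟨N - 1, by omega⟩
      have h0 := hℓ.zero i
      have hF0 : ∀ z, F z 0 = -∑ j : Fin (n + 1), ℓ i j.succ / ℓ i 0 * F z j.succ := by
        intro z
        have h1 := hi z
        unfold UU at h1
        rw [Fin.sum_univ_succ] at h1
        have h2 : ∑ j : Fin (n + 1), ℓ i j.succ / ℓ i 0 * F z j.succ =
            (∑ j : Fin (n + 1), ℓ i j.succ * F z j.succ) / ℓ i 0 := by
          rw [Finset.sum_div]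
          exact Finset.sum_congr rfl fun j _ => by ring
        rw [h2]
        field_simp
        linear_combination h1
      obtain ⟨t, ht⟩ := ih N' (by omega) (by omega) (LG.rs ℓ i) (hℓ.rs i)
        (fun z j => F z j.succ) (fun j => hF j.succ) (fun z hz => by
          apply hnz z
          funext j
          refine Fin.cases ?_ (fun j => congrFun hz j) j
          rw [hF0 z]
          have h3 : ∀ j : Fin (n + 1), F z j.succ = 0 := fun j => congrFun hz j
          simp [h3])
        (fun a z b hb => by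
          have e : UU (LG.rs ℓ i) (fun z j => F z j.succ) a =
              fun w => ℓ i 0 * UU ℓ F (i.succAbove a) w := funext fun w => rs_UU hi a w
          rw [e, order_smul h0] at hb
          exact hm _ z b hb) z z'
      refine ⟨t, ?_⟩
      have h3 : ∀ j : Fin (n + 1), F z' j.succ = t * F z j.succ := fun j => congrFun ht j
      funext j
      refine Fin.cases ?_ (fun j => h3 j) j
      rw [Pi.smul_apply, smul_eq_mul, hF0 z', hF0 z, mul_neg, Finset.mul_sum]
      congr 1
      exact Finset.sum_congr rfl fun j _ => by rw [h3 j]; ring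

end Pool.Agent.V8H90.LG
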