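import Pool.Agent.V8H90.LG.Gt
import Pool.Agent.V8H90.LG.Curve

/-!
Entire curves in quasi-projective varieties over projective space which are ramified over the members
of a good arrangement.
-/

set_option autoImplicit false

namespace Pool.Agent.V8H90.LG

open MvPolynomial Filter Metric Set Topology Pool.Agent.W601.SM Pool.Agent.W601.PH
  Pool.Agent.V8H90.JT Pool.Agent.V8H90.AJ

variable {N n : ℕ}

theorem ev2_diff {u : ℂ → Fin (N + 1) → ℂ} {v : ℂ → Fin (n + 1) → ℂ}
    (hu : ∀ j, Differentiable ℂ fun z => u z j) (hv : ∀ j, Differentiable ℂ fun z => v z j)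
    (A : BiPoly N n) : Differentiable ℂ fun z => ev2 (u z) (v z) A := by
  unfold ev2
  induction A using MvPolynomial.induction_on with
  | C a => simp only [eval_C]; exact differentiable_const _
  | add p q hp hq => simp only [map_add]; exact hp.add hq
  | mul_X p i hp =>
    simp only [map_mul, eval_X]
    refine hp.mul ?_
    rcases i with i | i
    · exact hu i
    · exact hv i

/-- the polynomials which vanish to order at least `c` along the curve -/
noncomputable def curIdeal {u : ℂ → Fin (N + 1) → ℂ} {v : ℂ → Fin (n + 1) → ℂ}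
    (hu : ∀ j, Differentiable ℂ fun z => u z j) (hv : ∀ j, Differentiable ℂ fun z => v z j)
    (z0 : ℂ) (c : ℕ) : Ideal (BiPoly N n) where
  carrier := {A | (c : ℕ∞) ≤ analyticOrderAt (fun z => ev2 (u z) (v z) A) z0}
  zero_mem' := by
    change (c : ℕ∞) ≤ analyticOrderAt (fun z => ev2 (u z) (v z) 0) z0
    have h : (fun z => ev2 (u z) (v z) (0 : BiPoly N n)) = fun _ => 0 := by
      funext z
      exact map_zero _
    rw [h]
    have h2 : analyticOrderAt (fun _ : ℂ => (0 : ℂ)) z0 = ⊤ := by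
      rw [analyticOrderAt_eq_top]
      exact Filter.Eventually.of_forall fun _ => rfl
    rw [h2]
    exact le_top
  add_mem' := by
    intro A B hA hB
    change (c : ℕ∞) ≤ analyticOrderAt (fun z => ev2 (u z) (v z) (A + B)) z0
    have h : (fun z => ev2 (u z) (v z) (A + B)) = (fun z => ev2 (u z) (v z) A) +
        fun z => ev2 (u z) (v z) B := by
      funext z
      exact map_add _ _ _
    rw [h]
    exact (le_min hA hB).trans le_analyticOrderAt_add
  smul_mem' := by
    intro A B hB
    change (c : ℕ∞) ≤ analyticOrderAt (fun z => ev2 (u z) (v z) (A * B)) z0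
    have h : (fun z => ev2 (u z) (v z) (A * B)) = (fun z => ev2 (u z) (v z) A) *
        fun z => ev2 (u z) (v z) B := by
      funext z
      exact map_mul _ _ _
    rw [h, analyticOrderAt_mul ((ev2_diff hu hv A).analyticAt z0) ((ev2_diff hu hv B).analyticAt z0)]
    exact hB.trans le_add_self

theorem mem_curIdeal {u : ℂ → Fin (N + 1) → ℂ} {v : ℂ → Fin (n + 1) → ℂ}
    {hu : ∀ j, Differentiable ℂ fun z => u z j} {hv : ∀ j, Differentiable ℂ fun z => v z j}
    {z0 : ℂ} {c : ℕ} {A : BiPoly N n} :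
    A ∈ curIdeal hu hv z0 c ↔ (c : ℕ∞) ≤ analyticOrderAt (fun z => ev2 (u z) (v z) A) z0 :=
  Iff.rfl

theorem curIdeal_pow {u : ℂ → Fin (N + 1) → ℂ} {v : ℂ → Fin (n + 1) → ℂ}
    {hu : ∀ j, Differentiable ℂ fun z => u z j} {hv : ∀ j, Differentiable ℂ fun z => v z j}
    {z0 : ℂ} (m : ℕ) : curIdeal hu hv z0 1 ^ m ≤ curIdeal hu hv z0 m := by
  induction m with
  | zero =>
    intro A _
    rw [mem_curIdeal, Nat.cast_zero]
    exact bot_le
  | succ m ih =>
    rw [pow_succ, Ideal.mul_le]
    intro A hA B hB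
    rw [mem_curIdeal]
    have h : (fun z => ev2 (u z) (v z) (A * B)) = (fun z => ev2 (u z) (v z) A) *
        fun z => ev2 (u z) (v z) B := by
      funext z
      exact map_mul _ _ _
    rw [h, analyticOrderAt_mul ((ev2_diff hu hv A).analyticAt z0) ((ev2_diff hu hv B).analyticAt z0)]
    have h1 := mem_curIdeal.mp (ih hA)
    have h2 := mem_curIdeal.mp hB
    push_cast at h2 ⊢
    exact add_le_add h1 h2

/-- multiplicities of entire curves in `X - D` -/
theorem curve_mult {X D : BiSet N n} {m : ℕ} {a : Fin (n + 1) → ℂ} (hR : RamAt m a X D)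
    {u : ℂ → Fin (N + 1) → ℂ} {v : ℂ → Fin (n + 1) → ℂ}
    (hu : ∀ j, Differentiable ℂ fun z => u z j) (hv : ∀ j, Differentiable ℂ fun z => v z j)
    (hmem : ∀ z, QMem X D (u z) (v z)) {z0 : ℂ} {c : ℕ}
    (hc : analyticOrderAt (fun w => ∑ j, a j * v w j) z0 = c) : c = 0 ∨ m ≤ c := by
  have hlin : ∀ j : Fin (n + 1), Differentiable ℂ fun w => a j * v w j :=
    fun j => (hv j).const_mul _
  have hlind : Differentiable ℂ fun w => ∑ j, a j * v w j :=
    Differentiable.fun_sum fun j _ => hlin j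
  by_cases h0 : ∑ j, a j * v z0 j = 0
  · right
    obtain ⟨A, F, I, hA, hF, hAF, hI⟩ := hR _ _ (hmem z0)
    have hIJ : I ≤ curIdeal hu hv z0 1 := by
      intro G hG
      rw [mem_curIdeal, Nat.cast_one, Order.one_le_iff_ne_zero,
        ((ev2_diff hu hv G).analyticAt z0).analyticOrderAt_ne_zero]
      exact hI G hG _ _ (hmem z0).1 h0
    have hFm := mem_curIdeal.mp (curIdeal_pow m (Ideal.pow_right_mono hIJ m hF))
    have e : (fun z => ev2 (u z) (v z) F) = (fun z => ev2 (u z) (v z) A) *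
        fun w => ∑ j, a j * v w j := by
      funext z
      exact (hAF _ _ (hmem z).1).symm
    rw [e, analyticOrderAt_mul ((ev2_diff hu hv A).analyticAt z0) (hlind.analyticAt z0), hc,
      ((ev2_diff hu hv A).analyticAt z0).analyticOrderAt_eq_zero.mpr hA, zero_add] at hFm
    exact_mod_cast hFm
  · left
    have h1 := (hlind.analyticAt z0).analyticOrderAt_eq_zero.mpr h0
    rw [h1] at hc
    exact_mod_cast hc.symm

/-- **Entire curves are contained in fibres.** -/
theorem curve_const {q q0 d m : ℕ} (hnd : n + 1 ≤ d) (hnum : d * m + 1 * q0 < m * q0)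
    (hq : q0 + 2 * (n + 1) ≤ q) {ℓ : Fin q → Fin (n + 1) → ℂ} (hℓ : GA d q0 n q ℓ)
    {X D : BiSet N n} (hR : ∀ i, RamAt m (ℓ i) X D)
    {u : ℂ → Fin (N + 1) → ℂ} {v : ℂ → Fin (n + 1) → ℂ}
    (hu : ∀ j, Differentiable ℂ fun z => u z j) (hv : ∀ j, Differentiable ℂ fun z => v z j)
    (hmem : ∀ z, QMem X D (u z) (v z)) (z z' : ℂ) : ∃ t : ℂ, v z' = t • v z := by
  obtain ⟨q, rfl⟩ : ∃ q', q = q' + 1 := ⟨q - 1, by omega⟩
  refine ga_const hnum n q hnd hq ℓ hℓ v hv (fun z => (hmem z).1.2.1) (fun i z0 c hc => ?_) z z'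
  exact curve_mult (hR i) hu hv hmem hc

end Pool.Agent.V8H90.LG
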