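import Pool.Agent.V8H90.LG.Rel
import Pool.Agent.V8H90.LG.Ent

/-!
The exceptional set: curves in the fibres.
-/

set_option autoImplicit false

namespace Pool.Agent.V8H90.LG

open MvPolynomial Filter Metric Set Topology Pool.Agent.W601.SM Pool.Agent.W601.PH
  Pool.Agent.V8H90.JT Pool.Agent.V8H90.AJ
open Pool.Agent.Y191 (RF)

variable {N n : ℕ} {K : Type} [Field K] [Algebra ℂ K]

/-- a product of entire functions which vanishes identically -/
theorem prod_zero {ι : Type*} (s : Finset ι) {f : ι → ℂ → ℂ} {g : ℂ → ℂ}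
    (hf : ∀ i, Differentiable ℂ (f i)) (hg : Differentiable ℂ g)
    (h : ∀ t, g t * ∏ i ∈ s, f i t = 0) {t1 : ℂ} (hg1 : g t1 ≠ 0) :
    ∃ i ∈ s, ∀ t, f i t = 0 := by
  classical
  induction s using Finset.induction_on generalizing g with
  | empty =>
    have := h t1
    simp only [Finset.prod_empty, mul_one] at this
    exact absurd this hg1
  | insert a s ha ih =>
    have h1 : ∀ t, f a t * (g t * ∏ i ∈ s, f i t) = 0 := by
      intro t
      have := h t
      rw [Finset.prod_insert ha] at this
      rw [← this]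
      ring
    have hd : Differentiable ℂ fun t => g t * ∏ i ∈ s, f i t := by
      refine hg.mul ?_
      exact Differentiable.fun_finsetProd fun i _ => hf i
    rcases AnalyticOnNhd.eq_zero_or_eq_zero_of_mul_eq_zero (U := Set.univ)
      (fun z _ => (hf a).analyticAt z) (fun z _ => hd.analyticAt z) (fun t _ => h1 t)
      isPreconnected_univ with h2 | h2
    · exact ⟨a, Finset.mem_insert_self _ _, fun t => h2 t (Set.mem_univ t)⟩
    · obtain ⟨i, hi, h3⟩ := ih hg (fun t => h2 t (Set.mem_univ t)) hg1
      exact ⟨i, Finset.mem_insert_of_mem hi, h3⟩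

/-- entire functions with algebraic ratio -/
theorem ratio_const {f g : ℂ → ℂ} (hf : Differentiable ℂ f) (hg : Differentiable ℂ g) {d : ℕ}
    {a : ℕ → ℂ} (ha : a d ≠ 0)
    (h : ∀ t, ∑ k ∈ Finset.range (d + 1), a k * (f t ^ k * g t ^ (d - k)) = 0) {t1 : ℂ}
    (hg1 : g t1 ≠ 0) : ∃ r : ℂ, ∀ t, f t = r * g t := by
  classical
  set p : Polynomial ℂ := ∑ k ∈ Finset.range (d + 1), Polynomial.C (a k) * Polynomial.X ^ k with hp
  have hp0 : p ≠ 0 := by
    intro h0
    have h1 := congrArg (fun q => q.coeff d) h0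
    simp only [hp, Polynomial.finsetSum_coeff, Polynomial.coeff_C_mul, Polynomial.coeff_X_pow,
      Polynomial.coeff_zero] at h1
    rw [Finset.sum_eq_single d (fun k _ hk => by rw [if_neg (Ne.symm hk), mul_zero])
      (fun hd => absurd (Finset.self_mem_range_succ d) hd), if_pos rfl, mul_one] at h1
    exact ha h1
  obtain ⟨r, -, hr⟩ := prod_zero p.roots.toFinset (f := fun r t => f t - r * g t) (g := g)
    (fun r => hf.sub (hg.const_mul r)) hg (fun t => by
      by_cases hgt : g t = 0
      · rw [hgt, zero_mul]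
      · have hroot : f t / g t ∈ p.roots.toFinset := by
          rw [Multiset.mem_toFinset, Polynomial.mem_roots hp0, Polynomial.IsRoot.def, hp,
            Polynomial.eval_finsetSum]
          simp only [Polynomial.eval_mul, Polynomial.eval_C, Polynomial.eval_pow,
            Polynomial.eval_X]
          have h1 : ∀ k ∈ Finset.range (d + 1), a k * (f t / g t) ^ k =
              (g t ^ d)⁻¹ * (a k * (f t ^ k * g t ^ (d - k))) := by
            intro k hk
            have hk' : k ≤ d := by
              have := Finset.mem_range.mp hk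
              omega
            have h2 : g t ^ d = g t ^ (d - k) * g t ^ k := by
              rw [← pow_add]
              congr 1
              omega
            rw [h2, div_pow]
            have h3 : g t ^ k ≠ 0 := pow_ne_zero _ hgt
            have h4 : g t ^ (d - k) ≠ 0 := pow_ne_zero _ hgt
            field_simp
          rw [Finset.sum_congr rfl h1, ← Finset.mul_sum, h t, mul_zero]
        rw [Finset.prod_eq_zero hroot (by field_simp; ring), mul_zero]) hg1
  exact ⟨r, fun t => sub_eq_zero.mp (hr t)⟩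

theorem ev2_smul {P : BiPoly N n} {a b : ℕ} (h : ∀ (s t : ℂ) (u : Fin (N + 1) → ℂ)
    (v : Fin (n + 1) → ℂ), ev2 (s • u) (t • v) P = s ^ a * t ^ b * ev2 u v P) (t : ℂ)
    (u : Fin (N + 1) → ℂ) (v : Fin (n + 1) → ℂ) : ev2 u (t • v) P = t ^ b * ev2 u v P := by
  have := h 1 t u v
  rwa [one_smul, one_pow, one_mul] at this

theorem ev2_inr' (u : Fin (N + 1) → ℂ) (v : Fin (n + 1) → ℂ) (A : MvPolynomial (Fin (n + 1)) ℂ) :
    ev2 u v (rename Sum.inr A : BiPoly N n) = eval v A := ev2_inr u v A

theorem evK_inr (z : Fin (N + 1) → K) (b : Fin (n + 1) → K) (A : MvPolynomial (Fin (n + 1)) ℂ) :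
    evK z b (rename Sum.inr A : BiPoly N n) = aeval b A := by
  unfold evK
  rw [aeval_rename]
  rfl

/-- The curve is contained in the variety with the generic point `(z, b)`. -/
def InVar (z : Fin (N + 1) → K) (b : Fin (n + 1) → K) (u : Fin (N + 1) → ℂ)
    (v : Fin (n + 1) → ℂ) : Prop := ∀ P : BiPoly N n, BiHom P → evK z b P = 0 → ev2 u v P = 0

/-- **The exceptional form.** -/
theorem exists_exc {z : Fin (N + 1) → K} {b : Fin (n + 1) → K} (hz0 : z ≠ 0) (hb0 : b ≠ 0)
    (halg : Algebra.IsAlgebraic (RF ℂ b) K) :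
    ∃ R : BiPoly N n, BiHom R ∧ evK z b R ≠ 0 ∧
      (∀ u v, ev2 u v R ≠ 0 → u ≠ 0 ∧ v ≠ 0) ∧
      ∀ (u : ℂ → Fin (N + 1) → ℂ) (v : ℂ → Fin (n + 1) → ℂ),
        (∀ j, Differentiable ℂ fun t => u t j) → (∀ t, v t ≠ 0) →
        (∀ t, InVar z b (u t) (v t)) → (∀ t t', ∃ c : ℂ, v t' = c • v t) →
        ∀ t1, ev2 (u t1) (v t1) R ≠ 0 → ∀ t, ∃ c : ℂ, u t = c • u t1 := by
  classical
  obtain ⟨i0, hi0⟩ : ∃ i, z i ≠ 0 := by
    by_contra hcon
    push Not at hcon
    exact hz0 (funext hcon)
  obtain ⟨j0, hj0⟩ : ∃ j, b j ≠ 0 := by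
    by_contra hcon
    push Not at hcon
    exact hb0 (funext hcon)
  have hrel : ∀ i, ∃ (e d : ℕ) (A : ℕ → MvPolynomial (Fin (n + 1)) ℂ),
      (∀ k, (A k).IsHomogeneous e) ∧ aeval b (A d) ≠ 0 ∧
      ∑ k ∈ Finset.range (d + 1), aeval b (A k) * (z i / z i0) ^ k = 0 := fun i =>
    exists_rel hj0 (halg.isAlgebraic (z i / z i0))
  choose e d A hA1 hA2 hA3 using hrel
  set R : BiPoly N n := X (Sum.inl i0) * X (Sum.inr j0) * ∏ i, rename Sum.inr (A i (d i)) with hR
  have hRev : ∀ u v, ev2 u v R = u i0 * v j0 * ∏ i, eval v (A i (d i)) := by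
    intro u v
    rw [hR]
    unfold ev2
    rw [map_mul, map_mul, eval_X, eval_X, Sum.elim_inl, Sum.elim_inr, map_prod]
    congr 1
    exact Finset.prod_congr rfl fun i _ => ev2_inr' u v _
  have hscale : ∀ i k (c : ℂ) (v : Fin (n + 1) → ℂ), eval (c • v) (A i k) =
      c ^ e i * eval v (A i k) := fun i k c v => eval_smul_hom' (hA1 i k) c v
  refine ⟨R, ⟨1, 1 + ∑ i, e i, fun s t u v => ?_⟩, ?_, ?_, ?_⟩
  · rw [hRev, hRev]
    simp only [Pi.smul_apply, smul_eq_mul, hscale, Finset.prod_mul_distrib]
    rw [Finset.prod_pow_eq_pow_sum, pow_add]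
    ring
  · have h1 : evK z b R = z i0 * b j0 * ∏ i, aeval b (A i (d i)) := by
      rw [hR, evK_mul, evK_mul]
      congr 1
      · unfold evK
        rw [aeval_X, aeval_X, Sum.elim_inl, Sum.elim_inr]
      · have h2 : evK z b (∏ i, rename Sum.inr (A i (d i)) : BiPoly N n) =
            ∏ i, evK z b (rename Sum.inr (A i (d i)) : BiPoly N n) := map_prod _ _ _
        rw [h2]
        exact Finset.prod_congr rfl fun i _ => evK_inr z b _
    rw [h1]
    exact mul_ne_zero (mul_ne_zero hi0 hj0) (Finset.prod_ne_zero_iff.mpr fun i _ => hA2 i)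
  · intro u v h
    rw [hRev] at h
    have h1 := left_ne_zero_of_mul h
    constructor
    · rintro rfl
      exact left_ne_zero_of_mul h1 rfl
    · rintro rfl
      exact right_ne_zero_of_mul h1 rfl
  · intro u v hu hv hin hvc t1 ht1 t
    rw [hRev] at ht1
    have h1 := left_ne_zero_of_mul (left_ne_zero_of_mul ht1)
    have h2 := Finset.prod_ne_zero_iff.mp (right_ne_zero_of_mul ht1)
    have hr : ∀ i, ∃ r : ℂ, ∀ t, u t i = r * u t i0 := by
      intro i
      refine ratio_const (hu i) (hu i0) (a := fun k => eval (v t1) (A i k))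
        (h2 i (Finset.mem_univ i)) (fun s => ?_) h1
      set Q : BiPoly N n := ∑ k ∈ Finset.range (d i + 1),
        rename Sum.inr (A i k) * (X (Sum.inl i) ^ k * X (Sum.inl i0) ^ (d i - k)) with hQ
      have hQev : ∀ u v, ev2 u v Q = ∑ k ∈ Finset.range (d i + 1),
          eval v (A i k) * (u i ^ k * u i0 ^ (d i - k)) := by
        intro u v
        rw [hQ]
        unfold ev2
        rw [map_sum]
        refine Finset.sum_congr rfl fun k _ => ?_
        rw [map_mul, map_mul, map_pow, map_pow, eval_X, eval_X, Sum.elim_inl, Sum.elim_inl]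
        congr 1
        exact ev2_inr' u v _
      have hQh : BiHom Q := by
        refine ⟨d i, e i, fun s t u v => ?_⟩
        rw [hQev, hQev, Finset.mul_sum]
        refine Finset.sum_congr rfl fun k hk => ?_
        have hk' : k ≤ d i := by
          have := Finset.mem_range.mp hk
          omega
        rw [hscale]
        simp only [Pi.smul_apply, smul_eq_mul, mul_pow]
        have h5 : s ^ d i = s ^ k * s ^ (d i - k) := by
          rw [← pow_add]
          congr 1
          omega
        rw [h5]
        ring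
      have hQ0 : evK z b Q = 0 := by
        have h6 : evK z b Q = ∑ k ∈ Finset.range (d i + 1),
            aeval b (A i k) * (z i ^ k * z i0 ^ (d i - k)) := by
          rw [hQ]
          have h7 : evK z b (∑ k ∈ Finset.range (d i + 1),
              rename Sum.inr (A i k) * (X (Sum.inl i) ^ k * X (Sum.inl i0) ^ (d i - k)) :
                BiPoly N n) = ∑ k ∈ Finset.range (d i + 1), evK z b
              (rename Sum.inr (A i k) * (X (Sum.inl i) ^ k * X (Sum.inl i0) ^ (d i - k)) :
                BiPoly N n) := map_sum _ _ _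
          rw [h7]
          refine Finset.sum_congr rfl fun k _ => ?_
          rw [evK_mul, evK_mul, evK_inr]
          congr 1
          unfold evK
          rw [map_pow, map_pow, aeval_X, aeval_X, Sum.elim_inl, Sum.elim_inl]
        rw [h6]
        have h8 : ∀ k ∈ Finset.range (d i + 1), aeval b (A i k) * (z i ^ k * z i0 ^ (d i - k)) =
            z i0 ^ d i * (aeval b (A i k) * (z i / z i0) ^ k) := by
          intro k hk
          have hk' : k ≤ d i := by
            have := Finset.mem_range.mp hk
            omega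
          have h9 : z i0 ^ d i = z i0 ^ (d i - k) * z i0 ^ k := by
            rw [← pow_add]
            congr 1
            omega
          rw [h9, div_pow]
          have h10 : z i0 ^ k ≠ 0 := pow_ne_zero _ hi0
          field_simp
        rw [Finset.sum_congr rfl h8, ← Finset.mul_sum, hA3 i, mul_zero]
      have h3 := hin s Q hQh hQ0
      rw [hQev] at h3
      obtain ⟨c, hc⟩ := hvc t1 s
      have hc0 : c ≠ 0 := by
        rintro rfl
        exact hv s (by rw [hc, zero_smul])
      rw [hc] at h3
      have h4 : ∑ k ∈ Finset.range (d i + 1), eval (c • v t1) (A i k) *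
          (u s i ^ k * u s i0 ^ (d i - k)) = c ^ e i * ∑ k ∈ Finset.range (d i + 1),
          eval (v t1) (A i k) * (u s i ^ k * u s i0 ^ (d i - k)) := by
        rw [Finset.mul_sum]
        refine Finset.sum_congr rfl fun k _ => ?_
        rw [hscale]
        ring
      rw [h4] at h3
      exact (mul_eq_zero.mp h3).resolve_left (pow_ne_zero _ hc0)
    choose r hr using hr
    refine ⟨u t i0 / u t1 i0, ?_⟩
    funext i
    rw [Pi.smul_apply, smul_eq_mul, hr i t, hr i t1]
    field_simp

end Pool.Agent.V8H90.LG
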