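import Pool.Agent.V8H90.LG.Var

/-!
Algebraic relations between the coordinates, by forms in the coordinates of the image.
-/

set_option autoImplicit false

namespace Pool.Agent.V8H90.LG

open MvPolynomial Pool.Agent.W601.SM IntermediateField.algebraAdjoinAdjoin
open Pool.Agent.Y191 (RF)

variable {N n : ℕ} {K : Type} [Field K] [Algebra ℂ K]

/-- homogenization with the coordinate `j0` -/
noncomputable def hz (j0 : Fin (n + 1)) (e : ℕ) (c : MvPolynomial (Fin (n + 1)) ℂ) :
    MvPolynomial (Fin (n + 1)) ℂ :=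
  ∑ i ∈ Finset.range (e + 1), X j0 ^ (e - i) * homogeneousComponent i c

theorem hz_hom (j0 : Fin (n + 1)) (e : ℕ) (c : MvPolynomial (Fin (n + 1)) ℂ) :
    (hz j0 e c).IsHomogeneous e := by
  unfold hz
  refine IsHomogeneous.sum _ _ _ fun i hi => ?_
  have h1 := ((isHomogeneous_X ℂ j0).pow (e - i)).mul (homogeneousComponent_isHomogeneous i c)
  have h2 : 1 * (e - i) + i = e := by
    have := Finset.mem_range.mp hi
    omega
  rwa [h2] at h1

theorem aeval_hom {F : Type*} [CommRing F] [Algebra ℂ F] {p : MvPolynomial (Fin (n + 1)) ℂ}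
    {i : ℕ} (hp : p.IsHomogeneous i) (c : F) (y : Fin (n + 1) → F) :
    aeval (fun j => c * y j) p = c ^ i * aeval y p := by
  rw [aeval_def, aeval_def, eval₂_eq', eval₂_eq', Finset.mul_sum]
  refine Finset.sum_congr rfl fun m hm => ?_
  have hd : ∑ j, m j = i := by
    have h1 := hp (mem_support_iff.mp hm)
    rw [← h1, Finsupp.weight_apply, Finsupp.sum_fintype _ _ (by intro; simp)]
    simp
  simp only [mul_pow, Finset.prod_mul_distrib]
  rw [Finset.prod_pow_eq_pow_sum, hd]
  ring

theorem aeval_hz {j0 : Fin (n + 1)} {e : ℕ} {c : MvPolynomial (Fin (n + 1)) ℂ}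
    (hc : c.totalDegree ≤ e) {b : Fin (n + 1) → K} (hj0 : b j0 ≠ 0) :
    aeval b (hz j0 e c) = b j0 ^ e * aeval (fun j => b j / b j0) c := by
  have h1 : b = fun j => b j0 * (b j / b j0) := by
    funext j
    field_simp
  unfold hz
  rw [map_sum]
  have h2 : ∀ i ∈ Finset.range (e + 1), aeval b (X j0 ^ (e - i) * homogeneousComponent i c) =
      b j0 ^ e * aeval (fun j => b j / b j0) (homogeneousComponent i c) := by
    intro i hi
    have hi' := Finset.mem_range.mp hi
    rw [map_mul, map_pow, aeval_X]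
    have h3 : aeval b (homogeneousComponent i c) =
        b j0 ^ i * aeval (fun j => b j / b j0) (homogeneousComponent i c) := by
      conv_lhs => rw [h1]
      exact aeval_hom (homogeneousComponent_isHomogeneous i c) _ _
    rw [h3, ← mul_assoc, ← pow_add]
    congr 2
    omega
  rw [Finset.sum_congr rfl h2, ← Finset.mul_sum, ← map_sum]
  congr 2
  conv_rhs => rw [← sum_homogeneousComponent c]
  symm
  refine Finset.sum_subset (Finset.range_mono (by omega)) fun i _ hi => ?_
  rw [Finset.mem_range, not_lt] at hi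
  exact homogeneousComponent_eq_zero i c (by omega)

theorem RF_eq {b : Fin (n + 1) → K} {j0 : Fin (n + 1)} (hj0 : b j0 ≠ 0) :
    RF ℂ b = IntermediateField.adjoin ℂ (Set.range fun j => b j / b j0) := by
  apply le_antisymm
  · unfold RF
    rw [IntermediateField.adjoin_le_iff]
    rintro f ⟨i, j, hj, rfl⟩
    have h1 : b i / b j = (b i / b j0) / (b j / b j0) := by
      field_simp
    rw [h1]
    exact div_mem (IntermediateField.subset_adjoin ℂ _ ⟨i, rfl⟩)
      (IntermediateField.subset_adjoin ℂ _ ⟨j, rfl⟩)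
  · rw [IntermediateField.adjoin_le_iff]
    rintro f ⟨i, rfl⟩
    exact IntermediateField.subset_adjoin ℂ _ ⟨i, j0, hj0, rfl⟩

/-- An element which is algebraic over the function field of the image satisfies an equation whose
coefficients are forms of the same degree. -/
theorem exists_rel {b : Fin (n + 1) → K} {j0 : Fin (n + 1)} (hj0 : b j0 ≠ 0) {f : K}
    (hf : IsAlgebraic (RF ℂ b) f) : ∃ (e d : ℕ) (A : ℕ → MvPolynomial (Fin (n + 1)) ℂ),
      (∀ k, (A k).IsHomogeneous e) ∧ aeval b (A d) ≠ 0 ∧
      ∑ k ∈ Finset.range (d + 1), aeval b (A k) * f ^ k = 0 := by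
  rw [RF_eq hj0] at hf
  have h1 := (IsFractionRing.isAlgebraic_iff
    (Algebra.adjoin ℂ (Set.range fun j => b j / b j0))
    (IntermediateField.adjoin ℂ (Set.range fun j => b j / b j0)) K).mpr hf
  obtain ⟨p, hp0, hp⟩ := h1
  have h2 : ∀ k, ∃ c : MvPolynomial (Fin (n + 1)) ℂ,
      aeval (fun j => b j / b j0) c = ((p.coeff k : Algebra.adjoin ℂ
        (Set.range fun j => b j / b j0)) : K) := by
    intro k
    have h3 := (p.coeff k).2
    have h4 := Algebra.adjoin_range_eq_range_aeval ℂ (fun j => b j / b j0)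
    have h5 := h4.le h3
    exact h5
  choose c hc using h2
  set d := p.natDegree with hd
  set e := (Finset.range (d + 1)).sup fun k => (c k).totalDegree with he
  have hce : ∀ k ∈ Finset.range (d + 1), (c k).totalDegree ≤ e := fun k hk =>
    Finset.le_sup (f := fun k => (c k).totalDegree) hk
  refine ⟨e, d, fun k => hz j0 e (c k), fun k => hz_hom _ _ _, ?_, ?_⟩
  · change aeval b (hz j0 e (c d)) ≠ 0
    rw [aeval_hz (hce d (Finset.self_mem_range_succ d)) hj0]
    refine mul_ne_zero (pow_ne_zero _ hj0) ?_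
    rw [hc d]
    intro h0
    have h3 : p.coeff d = 0 := Subtype.ext h0
    exact hp0 (Polynomial.leadingCoeff_eq_zero.mp h3)
  · have h3 : ∀ k ∈ Finset.range (d + 1), aeval b (hz j0 e (c k)) * f ^ k =
        b j0 ^ e * (((p.coeff k : Algebra.adjoin ℂ
        (Set.range fun j => b j / b j0)) : K) * f ^ k) := by
      intro k hk
      rw [aeval_hz (hce k hk) hj0, hc k, mul_assoc]
    rw [Finset.sum_congr rfl h3, ← Finset.mul_sum]
    rw [Polynomial.aeval_eq_sum_range] at hp
    have h4 : ∑ k ∈ Finset.range (d + 1), (((p.coeff k : Algebra.adjoin ℂ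
        (Set.range fun j => b j / b j0)) : K) * f ^ k) = 0 := by
      rw [← hp]
      exact Finset.sum_congr rfl fun k _ => rfl
    rw [h4, mul_zero]

end Pool.Agent.V8H90.LG
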