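import Pool.Agent.V8H90.LG.Fin

/-!
Projective varieties with a morphism to projective space which is ramified over the members of a good
arrangement: subvarieties, meromorphic images of affine spaces.
-/

set_option autoImplicit false

namespace Pool.Agent.V8H90.LG

open FF MvPolynomial Filter Metric Set Topology Pool.Agent.W601.SM Pool.Agent.W601.PH
  Pool.Agent.V8H90.JT Pool.Agent.V8H90.AJ Pool.Agent.W602.GT
open Pool.Agent.Y191 (RF)

variable {N n : ℕ} {K : Type} [Field K] [Algebra ℂ K]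

/-- The functions `u`, `v` are the homogeneous coordinates of a nonconstant meromorphic map from
`ℂ ^ g` to the projective variety with the equations `S`, a closed subset of a product of two
projective spaces. They may have common zeros. -/
structure Mero (S : Set (BiPoly N n)) (g : ℕ) (u : (Fin g → ℂ) → Fin (N + 1) → ℂ)
    (v : (Fin g → ℂ) → Fin (n + 1) → ℂ) : Prop where
  diffu : ∀ j, Differentiable ℂ fun p => u p j
  diffv : ∀ j, Differentiable ℂ fun p => v p j
  neu : ∃ p, u p ≠ 0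
  nev : ∃ p, v p ≠ 0
  mem : ∀ p, ∀ P ∈ S, ev2 (u p) (v p) P = 0
  nonconst : (∃ p p' i j, u p i * u p' j ≠ u p j * u p' i) ∨
    ∃ p p' i j, v p i * v p' j ≠ v p j * v p' i

/-- the equations of the closed subvariety with the generic point `(z, b)` -/
def Eqs (z : Fin (N + 1) → K) (b : Fin (n + 1) → K) : Set (BiPoly N n) :=
  {P | BiHom P ∧ evK z b P = 0}

/-- `K` is the function field, and `(z, b)` the generic point, of a closed subvariety of `X` of
dimension `w`. -/
structure SubVariety (X : BiSet N n) (K : Type) [Field K] [Algebra ℂ K] (w : ℕ)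
    (z : Fin (N + 1) → K) (b : Fin (n + 1) → K) : Prop where
  z0 : z ≠ 0
  b0 : b ≠ 0
  mem : ∀ P ∈ X.I, evK z b P = 0
  dim : Algebra.trdeg ℂ K = w
  gen : IntermediateField.adjoin ℂ ({f | ∃ i j, z j ≠ 0 ∧ f = z i / z j} ∪
    {f | ∃ i j, b j ≠ 0 ∧ f = b i / b j}) = ⊤

theorem SubVariety.alg {X : BiSet N n} {w : ℕ} {z : Fin (N + 1) → K} {b : Fin (n + 1) → K}
    (h : SubVariety X K w z b) (hf : FiniteFibres X) : Algebra.IsAlgebraic (RF ℂ b) K := by
  obtain ⟨j0, hj0⟩ : ∃ j, b j ≠ 0 := by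
    by_contra hcon
    push Not at hcon
    exact h.b0 (funext hcon)
  have h1 : (algebraicClosure (RF ℂ b) K).restrictScalars ℂ = ⊤ := by
    rw [← top_le_iff, ← h.gen, IntermediateField.adjoin_le_iff]
    rintro f (⟨i, j, hj, rfl⟩ | ⟨i, j, hj, rfl⟩)
    · have h2 := alg_of_finite hf h.mem hj hj0 i
      exact mem_algebraicClosure_iff.mpr h2
    · have h2 : b i / b j ∈ RF ℂ b := IntermediateField.subset_adjoin ℂ _ ⟨i, j, hj, rfl⟩
      exact mem_algebraicClosure_iff.mpr (isAlgebraic_algebraMap (⟨b i / b j, h2⟩ : RF ℂ b))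
  refine ⟨fun x => ?_⟩
  have h2 : x ∈ (algebraicClosure (RF ℂ b) K).restrictScalars ℂ := by
    rw [h1]
    trivial
  exact mem_algebraicClosure_iff.mp h2

/-- a point where two entire maps do not vanish -/
theorem exists_both {g M1 M2 : ℕ} {u : (Fin g → ℂ) → Fin M1 → ℂ} {v : (Fin g → ℂ) → Fin M2 → ℂ}
    (hu : ∀ j, Differentiable ℂ fun p => u p j) (hv : ∀ j, Differentiable ℂ fun p => v p j)
    (h1 : ∃ p, u p ≠ 0) (h2 : ∃ p, v p ≠ 0) : ∃ p, u p ≠ 0 ∧ v p ≠ 0 := by
  obtain ⟨p, hp⟩ := h1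
  obtain ⟨q, hq⟩ := h2
  obtain ⟨i, hi⟩ : ∃ i, u p i ≠ 0 := by
    by_contra hc
    push Not at hc
    exact hp (funext hc)
  obtain ⟨j, hj⟩ : ∃ j, v q j ≠ 0 := by
    by_contra hc
    push Not at hc
    exact hq (funext hc)
  by_contra hcon
  push Not at hcon
  let L : ℂ → Fin g → ℂ := fun s => p + s • (q - p)
  have hL : Differentiable ℂ L := by
    simp only [L]
    fun_prop
  have hL0 : L 0 = p := by simp [L]
  have hL1 : L 1 = q := by simp [L]
  have h3 : ∀ t, u (L t) i * v (L t) j = 0 := by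
    intro t
    by_cases h : u (L t) i = 0
    · rw [h, zero_mul]
    · have := hcon (L t) (fun h0 => h (congrFun h0 i))
      rw [this]
      simp
  obtain ⟨-, -, h4⟩ := prod_zero (Finset.univ : Finset Unit) (f := fun _ t => v (L t) j)
    (g := fun t => u (L t) i) (fun _ => (hv j).comp hL) ((hu i).comp hL) (fun t => by
      rw [Finset.univ_unique, Finset.prod_singleton]
      exact h3 t) (t1 := 0) (by simp only [hL0]; exact hi)
  have h5 := h4 1
  simp only [hL1] at h5
  exact hj h5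

/-- There are no nonconstant meromorphic maps if the fibres are finite. -/
theorem no_mero {q q0 d m : ℕ} (hnd : n + 1 ≤ d) (hnum : d * m + 1 * q0 < m * q0)
    (hq : q0 + 2 * (n + 1) ≤ q) {ℓ : Fin q → Fin (n + 1) → ℂ} (hℓ : GA d q0 n q ℓ)
    {X : BiSet N n} (hR : ∀ i, Ram m (ℓ i) X) (hf : FiniteFibres X) {g : ℕ}
    {u : (Fin g → ℂ) → Fin (N + 1) → ℂ} {v : (Fin g → ℂ) → Fin (n + 1) → ℂ}
    (h : Mero X.I g u v) : False := by
  classical
  obtain ⟨p0, hu0, hv0⟩ := exists_both h.diffu h.diffv h.neu h.nev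
  have key : ∀ q, (∃ c : ℂ, u q = c • u p0) ∧ ∃ c : ℂ, v q = c • v p0 := by
    intro q
    let L : ℂ → Fin g → ℂ := fun s => p0 + s • (q - p0)
    have hL : Differentiable ℂ L := by
      simp only [L]
      fun_prop
    have hL0 : L 0 = p0 := by simp [L]
    have hL1 : L 1 = q := by simp [L]
    have hud : ∀ j, Differentiable ℂ fun t => u (L t) j := fun j => (h.diffu j).comp hL
    have hvd : ∀ j, Differentiable ℂ fun t => v (L t) j := fun j => (h.diffv j).comp hL
    obtain ⟨U, hU1, hU2, hU3⟩ := exists_reduced (u := fun t => u (L t)) hud (t0 := 0)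
      (by simp only [hL0]; exact hu0)
    obtain ⟨V, hV1, hV2, hV3⟩ := exists_reduced (u := fun t => v (L t)) hvd (t0 := 0)
      (by simp only [hL0]; exact hv0)
    obtain ⟨i1, hi1⟩ : ∃ i, u p0 i ≠ 0 := by
      by_contra hc
      push Not at hc
      exact hu0 (funext hc)
    obtain ⟨j1, hj1⟩ : ∃ j, v p0 j ≠ 0 := by
      by_contra hc
      push Not at hc
      exact hv0 (funext hc)
    have hin : ∀ t, ∀ P ∈ X.I, ev2 (U t) (V t) P = 0 := by
      intro t P hPX
      have hP := X.hom P hPX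
      refine third_zero (f := fun t => u (L t) i1) (g := fun t => v (L t) j1)
        (h := fun t => ev2 (U t) (V t) P) (hud i1) (hvd j1) (ev2_diff hU1 hV1 P)
        (fun t => ?_) (t1 := 0) (by simp only [hL0]; exact hi1) (by simp only [hL0]; exact hj1) t
      obtain ⟨c, hc, hc0⟩ := hU3 t
      obtain ⟨c', hc', hc0'⟩ := hV3 t
      by_cases h1 : u (L t) i1 = 0
      · rw [h1, zero_mul, zero_mul]
      by_cases h2 : v (L t) j1 = 0
      · rw [h2, mul_zero, zero_mul]
      have h3 := hc0 (fun h0 => h1 (congrFun h0 i1))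
      have h4 := hc0' (fun h0 => h2 (congrFun h0 j1))
      have h5 := h.mem (L t) P hPX
      obtain ⟨α, β, hαβ⟩ := hP
      rw [hc, hc', hαβ] at h5
      have h6 : c ^ α * c' ^ β ≠ 0 := mul_ne_zero (pow_ne_zero _ h3) (pow_ne_zero _ h4)
      rw [(mul_eq_zero.mp h5).resolve_left h6, mul_zero]
    have hmem : ∀ t, QMem X (noD N n) (U t) (V t) := fun t =>
      ⟨⟨hU2 t, hV2 t, fun P hP => hin t P hP⟩, not_mem_noD _ _⟩
    have hVc := curve_const hnd hnum hq hℓ (fun i => (hR i).at) hU1 hV1 hmem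
    obtain ⟨T, hT⟩ := hf (V 0)
    have hUm : ∀ w, X.Mem (U w) (V 0) := by
      intro w
      obtain ⟨t, ht⟩ := hVc 0 w
      exact mem_scale (hmem w).1 (hV2 0) ht
    have hUc := Pool.Agent.W602.TL.const_of_finite hU1 hU2 (fun w => hT _ (hUm w))
    constructor
    · obtain ⟨c, hc, -⟩ := hU3 1
      obtain ⟨c0, hc0, hc0'⟩ := hU3 0
      obtain ⟨c1, hc1⟩ := hUc 0 1
      simp only [hL0] at hc0 hc0'
      simp only [hL1] at hc
      have h7 := hc0' hu0
      refine ⟨c * c1 * c0⁻¹, ?_⟩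
      rw [hc, hc1, hc0]
      simp only [smul_smul]
      congr 1
      field_simp
    · obtain ⟨c, hc, -⟩ := hV3 1
      obtain ⟨c0, hc0, hc0'⟩ := hV3 0
      obtain ⟨c1, hc1⟩ := hVc 0 1
      simp only [hL0] at hc0 hc0'
      simp only [hL1] at hc
      have h7 := hc0' hv0
      refine ⟨c * c1 * c0⁻¹, ?_⟩
      rw [hc, hc1, hc0]
      simp only [smul_smul]
      congr 1
      field_simp
  rcases h.nonconst with ⟨p, p', i, j, hne⟩ | ⟨p, p', i, j, hne⟩
  · apply hne
    obtain ⟨c, hc⟩ := (key p).1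
    obtain ⟨c', hc'⟩ := (key p').1
    rw [hc, hc']
    simp only [Pi.smul_apply, smul_eq_mul]
    ring
  · apply hne
    obtain ⟨c, hc⟩ := (key p).2
    obtain ⟨c', hc'⟩ := (key p').2
    rw [hc, hc']
    simp only [Pi.smul_apply, smul_eq_mul]
    ring

/-- **General type.** -/
theorem gt_sub {q q0 d M b0 w : ℕ} (hnd : n + 1 ≤ d) (hdq : d < q0) (hb1 : 1 ≤ b0)
    (hb0 : b0 + d * (M + 1) = M * q0) (hq : n + 1 ≤ q) {ℓ : Fin q → Fin (n + 1) → ℂ}
    (hℓ : GA d q0 n q ℓ) {X : BiSet N n} (hR : ∀ i, Ram (M + 1) (ℓ i) X)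
    {z : Fin (N + 1) → K} {b : Fin (n + 1) → K} (hw : 1 ≤ w) (h : SubVariety X K w z b)
    (halg : Algebra.IsAlgebraic (RF ℂ b) K) : GeneralType ℂ K w := by
  obtain ⟨h1, L, hL, ω, h2, -, h3, h4⟩ := log_gt hnd hdq hb1 hb0 hq hℓ
    (fun i => (hR i).at) h.mem h.b0 hw h.dim halg
  refine ⟨h1, L, hL, ω, h2, fun P hP j => h3 P hP ?_ j, h4⟩
  rw [not_not]
  classical
  obtain ⟨i1, hi1⟩ : ∃ i, z i ≠ 0 := by
    by_contra hc
    push Not at hc
    exact h.z0 (funext hc)
  obtain ⟨j1, hj1⟩ : ∃ j, b j ≠ 0 := by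
    by_contra hc
    push Not at hc
    exact h.b0 (funext hc)
  obtain ⟨i0, hi0, hmini⟩ := Finset.exists_min_image (Finset.univ.filter fun i => z i ≠ 0)
    (fun i => P.ord (z i)) ⟨i1, by simpa using hi1⟩
  obtain ⟨j0, hj0, hminj⟩ := Finset.exists_min_image (Finset.univ.filter fun j => b j ≠ 0)
    (fun j => P.ord (b j)) ⟨j1, by simpa using hj1⟩
  have hi0' : z i0 ≠ 0 := by simpa using hi0
  have hj0' : b j0 ≠ 0 := by simpa using hj0
  refine ⟨i0, j0, hi0', hj0', fun i => ?_, fun j => ?_, 1, Set.mem_singleton _, ?_, ?_⟩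
  · by_cases hi : z i = 0
    · left
      rw [hi, zero_div]
    · right
      rw [P.ord_div hi hi0']
      have := hmini i (by simpa using hi)
      omega
  · by_cases hj : b j = 0
    · left
      rw [hj, zero_div]
    · right
      rw [P.ord_div hj hj0']
      have := hminj j (by simpa using hj)
      omega
  · have : evK (fun i => z i / z i0) (fun j => b j / b j0) (1 : BiPoly N n) = 1 := map_one _
    rw [this]
    exact one_ne_zero
  · have : evK (fun i => z i / z i0) (fun j => b j / b j0) (1 : BiPoly N n) = 1 := map_one _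
    rw [this]
    exact P.ord_one

end Pool.Agent.V8H90.LG
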