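import Pool.Agent.V8H90.LG.Arr
import Pool.Agent.V8H90.AJ.Weak

/-!
Reduction to maps whose image is not contained in a member of the arrangement.
-/

set_option autoImplicit false

namespace Pool.Agent.V8H90.LG

open FF MvPolynomial Pool.Agent.W602.GT Pool.Agent.V8H90.AJ Pool.Agent.Y191

variable {K : Type} [Field K] [Algebra ℂ K]

/-- The multiplicity of the form `a` at the place is zero, infinite, or at least `m`. -/
def Mu (P : Place ℂ K) (m : ℕ) {v : ℕ} (a : Fin (v + 1) → ℂ) (b : Fin (v + 1) → K) : Prop :=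
  ∀ j0, b j0 ≠ 0 → (∀ j, b j = 0 ∨ P.ord (b j0) ≤ P.ord (b j)) →
    AJ.lf a b = 0 ∨ P.ord (AJ.lf a b) = P.ord (b j0) ∨ P.ord (b j0) + m ≤ P.ord (AJ.lf a b)

theorem lf_rs {N n : ℕ} {ℓ : Fin (N + 1) → Fin (n + 2) → ℂ} {i : Fin (N + 1)}
    {b : Fin (n + 2) → K} (hi : AJ.lf (ℓ i) b = 0) (a : Fin N) :
    AJ.lf (LG.rs ℓ i a) (fun j => b j.succ) =
      algebraMap ℂ K (ℓ i 0) * AJ.lf (ℓ (i.succAbove a)) b := sum_rs ℓ i a b hi

theorem solve {N n : ℕ} {ℓ : Fin (N + 1) → Fin (n + 2) → ℂ} {i : Fin (N + 1)} (h0 : ℓ i 0 ≠ 0)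
    {b : Fin (n + 2) → K} (hi : AJ.lf (ℓ i) b = 0) :
    b 0 = ∑ j : Fin (n + 1), algebraMap ℂ K (-(ℓ i j.succ / ℓ i 0)) * b j.succ := by
  unfold AJ.lf at hi
  rw [Fin.sum_univ_succ] at hi
  have h1 : algebraMap ℂ K (ℓ i 0) ≠ 0 := by rwa [Ne, map_eq_zero]
  have h2 : algebraMap ℂ K (ℓ i 0) * ∑ j : Fin (n + 1), algebraMap ℂ K (-(ℓ i j.succ / ℓ i 0)) *
      b j.succ = -∑ j : Fin (n + 1), algebraMap ℂ K (ℓ i j.succ) * b j.succ := by
    rw [Finset.mul_sum, ← Finset.sum_neg_distrib]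
    refine Finset.sum_congr rfl fun j _ => ?_
    rw [map_neg, map_div₀]
    field_simp
  apply mul_left_cancel₀ h1
  rw [h2]
  linear_combination hi

theorem RF_rs {n : ℕ} {b : Fin (n + 2) → K} {c : Fin (n + 1) → ℂ}
    (h : b 0 = ∑ j : Fin (n + 1), algebraMap ℂ K (c j) * b j.succ) :
    RF ℂ (fun j : Fin (n + 1) => b j.succ) = RF ℂ b := by
  apply le_antisymm
  · unfold RF
    rw [IntermediateField.adjoin_le_iff]
    rintro f ⟨i, j, hj, rfl⟩
    exact IntermediateField.subset_adjoin ℂ _ ⟨i.succ, j.succ, hj, rfl⟩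
  · have hs : ∀ i j : Fin (n + 1), b j.succ ≠ 0 →
        b i.succ / b j.succ ∈ RF ℂ (fun j : Fin (n + 1) => b j.succ) := fun i j hj =>
      IntermediateField.subset_adjoin ℂ _ ⟨i, j, hj, rfl⟩
    have h0 : ∀ j : Fin (n + 1), b j.succ ≠ 0 →
        b 0 / b j.succ ∈ RF ℂ (fun j : Fin (n + 1) => b j.succ) := by
      intro j hj
      rw [h, Finset.sum_div]
      refine sum_mem fun i _ => ?_
      rw [mul_div_assoc]
      exact mul_mem (IntermediateField.algebraMap_mem _ _) (hs i j hj)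
    unfold RF
    rw [IntermediateField.adjoin_le_iff]
    rintro f ⟨i, j, hj, rfl⟩
    change b i / b j ∈ RF ℂ (fun j : Fin (n + 1) => b j.succ)
    induction i using Fin.cases with
    | zero =>
      induction j using Fin.cases with
      | zero => rw [div_self hj]; exact one_mem _
      | succ j => exact h0 j hj
    | succ i =>
      induction j using Fin.cases with
      | zero =>
        by_cases hi : b i.succ = 0
        · rw [hi, zero_div]; exact zero_mem _
        · have h2 := inv_mem (h0 i hi)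
          rwa [inv_div] at h2
      | succ j => exact hs i j hj

theorem Mu_rs {N n m : ℕ} {ℓ : Fin (N + 1) → Fin (n + 2) → ℂ} {i : Fin (N + 1)} (h0 : ℓ i 0 ≠ 0)
    {b : Fin (n + 2) → K} (hi : AJ.lf (ℓ i) b = 0) {P : Place ℂ K} {a : Fin N}
    (h : Mu P m (ℓ (i.succAbove a)) b) :
    Mu P m (LG.rs ℓ i a) (fun j : Fin (n + 1) => b j.succ) := by
  intro j0 hj0 hmin
  have h1 : GO P (P.ord (b j0.succ)) (b 0) := by
    rw [solve h0 hi]
    refine GO.sum _ fun j _ => ?_
    have h2 : GO P (P.ord (b j0.succ)) (b j.succ) :=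
      (hmin j).imp_right fun h => by exact_mod_cast h
    have h3 := (GO.const (P := P) (-(ℓ i j.succ / ℓ i 0))).mul h2
    rwa [zero_add] at h3
  have h2 := h j0.succ hj0 (fun j => by
    induction j using Fin.cases with
    | zero => exact h1.imp_right fun h => by exact_mod_cast h
    | succ j => exact hmin j)
  have hc : algebraMap ℂ K (ℓ i 0) ≠ 0 := by rwa [Ne, map_eq_zero]
  rw [lf_rs hi]
  rcases h2 with h2 | h2
  · left
    rw [h2, mul_zero]
  · by_cases h4 : AJ.lf (ℓ (i.succAbove a)) b = 0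
    · left
      rw [h4, mul_zero]
    · right
      rw [P.ord_mul hc h4, P.ord_const h0, zero_add]
      exact h2

/-- Reduction to the case where the image is not contained in a member of the arrangement. -/
theorem strata {d q0 : ℕ} : ∀ n N : ℕ, n ≤ N → ∀ ℓ : Fin (N + 1) → Fin (n + 1) → ℂ,
    GA d q0 n (N + 1) ℓ → ∀ b : Fin (n + 1) → K, (∃ j, b j ≠ 0) → RF ℂ b ≠ ⊥ →
    ∃ (n' N' : ℕ) (ℓ' : Fin N' → Fin (n' + 1) → ℂ) (b' : Fin (n' + 1) → K), 1 ≤ n' ∧ n' ≤ n ∧
      Good ℓ' d q0 ∧ (∀ i, AJ.lf (ℓ' i) b' ≠ 0) ∧ (∃ j, b' j ≠ 0) ∧ RF ℂ b' = RF ℂ b ∧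
      ∀ (P : Place ℂ K) (m : ℕ), (∀ i, Mu P m (ℓ i) b) → ∀ i, Mu P m (ℓ' i) b' := by
  intro n
  induction n with
  | zero =>
    intro N _ ℓ _ b _ hb
    exfalso
    apply hb
    rw [eq_bot_iff]
    unfold RF
    rw [IntermediateField.adjoin_le_iff]
    rintro f ⟨i, j, hj, rfl⟩
    have hij : i = j := Fin.ext (by omega)
    rw [hij, div_self hj]
    exact one_mem _
  | succ n ih =>
    intro N hN ℓ hℓ b hb hRF
    by_cases hne : ∀ i, AJ.lf (ℓ i) b ≠ 0
    · exact ⟨n + 1, N + 1, ℓ, b, by omega, le_rfl, hℓ.good, hne, hb, rfl, fun _ _ h => h⟩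
    · push Not at hne
      obtain ⟨i, hi⟩ := hne
      obtain ⟨N, rfl⟩ : ∃ N', N = N' + 1 := ⟨N - 1, by omega⟩
      have h0 := hℓ.zero i
      have hs := solve h0 hi
      have hRF' := RF_rs hs
      obtain ⟨n', N', ℓ', b', h1, h2, h3, h4, h5, h6, h7⟩ := ih N (by omega) (LG.rs ℓ i)
        (hℓ.rs i) (fun j => b j.succ) (by
          by_contra hcon
          push Not at hcon
          obtain ⟨j, hj⟩ := hb
          apply hj
          induction j using Fin.cases with
          | zero =>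
            rw [hs]
            exact Finset.sum_eq_zero fun j _ => by rw [hcon j, mul_zero]
          | succ j => exact hcon j) (by rwa [hRF'])
      exact ⟨n', N', ℓ', b', h1, by omega, h3, h4, h5, by rw [h6, hRF'], fun P m h =>
        h7 P m fun a => Mu_rs h0 hi (h _)⟩

/-- The restriction of the arrangement has enough members. -/
theorem ne_bot {b : Fin (0 + 1) → K} : RF ℂ b = ⊥ := by
  rw [eq_bot_iff]
  unfold RF
  rw [IntermediateField.adjoin_le_iff]
  rintro f ⟨i, j, hj, rfl⟩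
  have hij : i = j := Fin.ext (by omega)
  rw [hij, div_self hj]
  exact one_mem _

end Pool.Agent.V8H90.LG
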