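import Pool.Agent.V8H90.AJ.General
import Pool.Agent.V8H90.JT.Final

/-!
Arrangements of hyperplanes which are good together with all their restrictions.
-/

set_option autoImplicit false

namespace Pool.Agent.V8H90.LG

open MvPolynomial Pool.Agent.V8H90.JT Pool.Agent.V8H90.AJ

/-- the restriction of the linear forms `ℓ a`, `a ≠ i`, to the hyperplane `ℓ i = 0`, in the last
coordinates (multiplied by `ℓ i 0`) -/
def rs {A : Type*} [CommRing A] {N n : ℕ} (ℓ : Fin (N + 1) → Fin (n + 2) → A) (i : Fin (N + 1))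
    (a : Fin N) (j : Fin (n + 1)) : A :=
  ℓ i 0 * ℓ (i.succAbove a) j.succ - ℓ (i.succAbove a) 0 * ℓ i j.succ

/-- The arrangement and all its restrictions are good. -/
def GA (d q0 : ℕ) : (n N : ℕ) → (Fin N → Fin (n + 1) → ℂ) → Prop
  | 0, _, _ => True
  | _ + 1, 0, _ => False
  | n + 1, N + 1, ℓ => Good ℓ d q0 ∧ ∀ i, ℓ i 0 ≠ 0 ∧ GA d q0 n N (rs ℓ i)

theorem GA.good {d q0 n N : ℕ} {ℓ : Fin (N + 1) → Fin (n + 2) → ℂ} (h : GA d q0 (n + 1) (N + 1) ℓ) :
    Good ℓ d q0 := h.1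

theorem GA.zero {d q0 n N : ℕ} {ℓ : Fin (N + 1) → Fin (n + 2) → ℂ}
    (h : GA d q0 (n + 1) (N + 1) ℓ) (i : Fin (N + 1)) : ℓ i 0 ≠ 0 := (h.2 i).1

theorem GA.rs {d q0 n N : ℕ} {ℓ : Fin (N + 1) → Fin (n + 2) → ℂ}
    (h : GA d q0 (n + 1) (N + 1) ℓ) (i : Fin (N + 1)) : GA d q0 n N (rs ℓ i) := (h.2 i).2

/-- the restricted forms -/
theorem sum_rs {A R : Type*} [CommRing A] [CommRing R] [Algebra A R] {N n : ℕ}
    (ℓ : Fin (N + 1) → Fin (n + 2) → A) (i : Fin (N + 1)) (a : Fin N) (u : Fin (n + 2) → R)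
    (h : ∑ j, algebraMap A R (ℓ i j) * u j = 0) :
    ∑ j : Fin (n + 1), algebraMap A R (LG.rs ℓ i a j) * u j.succ =
      algebraMap A R (ℓ i 0) * ∑ j, algebraMap A R (ℓ (i.succAbove a) j) * u j := by
  rw [Fin.sum_univ_succ] at h
  rw [Fin.sum_univ_succ (fun j => algebraMap A R (ℓ (i.succAbove a) j) * u j)]
  have h1 : ∑ j : Fin (n + 1), algebraMap A R (LG.rs ℓ i a j) * u j.succ =
      algebraMap A R (ℓ i 0) * ∑ j : Fin (n + 1), algebraMap A R (ℓ (i.succAbove a) j.succ) *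
        u j.succ - algebraMap A R (ℓ (i.succAbove a) 0) *
        ∑ j : Fin (n + 1), algebraMap A R (ℓ i j.succ) * u j.succ := by
    rw [Finset.mul_sum, Finset.mul_sum, ← Finset.sum_sub_distrib]
    refine Finset.sum_congr rfl fun j _ => ?_
    unfold LG.rs
    rw [map_sub, map_mul, map_mul]
    ring
  rw [h1]
  linear_combination (-algebraMap A R (ℓ (i.succAbove a) 0)) * h

/-- General hyperplanes. -/
theorem ga_general {d q0 : ℕ} : ∀ n N : ℕ,
    (1 ≤ n → q0 * (2 * n + d - 1).choose d < (2 * (n + 1) + d - 1).choose d) →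
    q0 + 2 * (n + 1) ≤ N →
    ∃ Ψ : MvPolynomial (Fin N × Fin (n + 1)) ℂ, Ψ ≠ 0 ∧
      ∀ ℓ : Fin N → Fin (n + 1) → ℂ, eval (fun x => ℓ x.1 x.2) Ψ ≠ 0 → GA d q0 n N ℓ := by
  intro n
  induction n with
  | zero => exact fun N _ _ => ⟨1, one_ne_zero, fun _ _ => trivial⟩
  | succ n ih =>
    intro N hc hN
    obtain ⟨N, rfl⟩ : ∃ N', N = N' + 1 := ⟨N - 1, by omega⟩
    obtain ⟨Ψ0, hΨ0, h0⟩ := good_general (q := N + 1) (v := n + 1) (by omega) (hc (by omega)) hN
    obtain ⟨Ψ1, hΨ1, h1⟩ := ih N (fun hn => count_down (K := 2) (hc (by omega))) (by omega)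
    set X' : Fin (N + 1) → Fin (n + 2) → MvPolynomial (Fin (N + 1) × Fin (n + 2)) ℂ :=
      fun i j => X (i, j) with hX'
    set Θ : Fin (N + 1) → MvPolynomial (Fin (N + 1) × Fin (n + 2)) ℂ := fun i =>
      X (i, 0) * bind₁ (fun y : Fin N × Fin (n + 1) => LG.rs X' i y.1 y.2) Ψ1 with hΘ
    have hev : ∀ i (ℓ : Fin (N + 1) → Fin (n + 2) → ℂ), eval (fun x => ℓ x.1 x.2) (Θ i) =
        ℓ i 0 * eval (fun x : Fin N × Fin (n + 1) => LG.rs ℓ i x.1 x.2) Ψ1 := by
      intro i ℓ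
      rw [hΘ]
      simp only [map_mul, eval_X]
      congr 1
      have h2 : (eval fun x : Fin (N + 1) × Fin (n + 2) => ℓ x.1 x.2) (bind₁
          (fun y : Fin N × Fin (n + 1) => LG.rs X' i y.1 y.2) Ψ1) =
          eval (fun y : Fin N × Fin (n + 1) => eval (fun x : Fin (N + 1) × Fin (n + 2) =>
            ℓ x.1 x.2) (LG.rs X' i y.1 y.2)) Ψ1 := by
        rw [← coe_aeval_eq_eval, ← coe_aeval_eq_eval, RingHom.coe_coe, RingHom.coe_coe,
          aeval_bind₁]
      rw [h2]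
      congr 1
      congr 1
      funext y
      simp only [LG.rs, hX', map_sub, map_mul, eval_X]
    have hΘ0 : ∀ i, Θ i ≠ 0 := by
      intro i hz
      obtain ⟨x, hx⟩ : ∃ x : Fin N × Fin (n + 1) → ℂ, eval x Ψ1 ≠ 0 := by
        by_contra hcon
        push Not at hcon
        exact hΨ1 (MvPolynomial.funext fun x => by rw [hcon x, map_zero])
      set ℓ : Fin (N + 1) → Fin (n + 2) → ℂ := fun k j =>
        if h : ∃ a : Fin N, i.succAbove a = k then Fin.cases 0 (fun j => x (h.choose, j)) j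
        else Fin.cases 1 (fun _ => 0) j with hℓ
      have e1 : ∀ a : Fin N, ∀ j : Fin (n + 1), ℓ (i.succAbove a) j.succ = x (a, j) := by
        intro a j
        have h : ∃ b : Fin N, i.succAbove b = i.succAbove a := ⟨a, rfl⟩
        rw [hℓ]
        simp only [dif_pos h, Fin.cases_succ]
        have h3 : h.choose = a := Fin.succAbove_right_injective h.choose_spec
        rw [h3]
      have hni : ¬ ∃ a : Fin N, i.succAbove a = i := by
        rintro ⟨a, ha⟩
        exact Fin.succAbove_ne i a ha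
      have e2 : ℓ i 0 = 1 := by
        rw [hℓ]
        simp only [dif_neg hni, Fin.cases_zero]
      have e3 : ∀ j : Fin (n + 1), ℓ i j.succ = 0 := by
        intro j
        rw [hℓ]
        simp only [dif_neg hni, Fin.cases_succ]
      have h3 := hev i ℓ
      rw [hz, map_zero, e2, one_mul] at h3
      apply hx
      rw [h3]
      congr 1
      congr 1
      funext y
      unfold LG.rs
      rw [e1, e2, e3, mul_zero, sub_zero, one_mul]
    refine ⟨Ψ0 * ∏ i, Θ i, mul_ne_zero hΨ0 (Finset.prod_ne_zero_iff.mpr fun i _ => hΘ0 i), ?_⟩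
    intro ℓ hℓ
    rw [map_mul, map_prod] at hℓ
    have h4 := left_ne_zero_of_mul hℓ
    have h5 := Finset.prod_ne_zero_iff.mp (right_ne_zero_of_mul hℓ)
    refine ⟨h0 ℓ h4, fun i => ?_⟩
    have h6 := h5 i (Finset.mem_univ i)
    rw [hev] at h6
    exact ⟨left_ne_zero_of_mul h6, h1 _ (right_ne_zero_of_mul h6)⟩

end Pool.Agent.V8H90.LG
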