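import Pool.Agent.V8H90.LG.Nrm
import Pool.Agent.V8H90.LG.Exc

/-!
Meromorphic images of affine spaces in projective varieties over projective space which are ramified
over the members of a good arrangement.
-/

set_option autoImplicit false

namespace Pool.Agent.V8H90.LG

open MvPolynomial Filter Metric Set Topology Pool.Agent.W601.SM Pool.Agent.W601.PH
  Pool.Agent.V8H90.JT Pool.Agent.V8H90.AJ
open Pool.Agent.Y191 (RF)

variable {N n : ℕ} {K : Type} [Field K] [Algebra ℂ K]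

/-- the empty set -/
noncomputable def noD (N n : ℕ) : BiSet N n where
  I := {1}
  hom := by
    intro P hP
    rw [Set.mem_singleton_iff] at hP
    subst hP
    refine ⟨0, 0, fun s t u v => ?_⟩
    unfold ev2
    rw [map_one, map_one, pow_zero, pow_zero, one_mul, one_mul]

theorem not_mem_noD (u : Fin (N + 1) → ℂ) (v : Fin (n + 1) → ℂ) : ¬ (noD N n).Mem u v := by
  intro h
  have h1 := h.2.2 1 (Set.mem_singleton _)
  unfold ev2 at h1
  rw [map_one] at h1
  exact one_ne_zero h1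

/-- Near the points of `X` the linear form `a` is in the `m`-th power of an ideal of functions which
vanish at its zeros. -/
def Ram (m : ℕ) (a : Fin (n + 1) → ℂ) (X : BiSet N n) : Prop :=
  ∀ u v, X.Mem u v → ∃ (A F : BiPoly N n) (I : Ideal (BiPoly N n)), ev2 u v A ≠ 0 ∧
    F ∈ I ^ m ∧ (∀ u' v', X.Mem u' v' → ev2 u' v' A * ∑ j, a j * v' j = ev2 u' v' F) ∧
    ∀ G ∈ I, ∀ u' v', X.Mem u' v' → ∑ j, a j * v' j = 0 → ev2 u' v' G = 0

theorem Ram.at {m : ℕ} {a : Fin (n + 1) → ℂ} {X : BiSet N n} (h : Ram m a X) :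
    RamAt m a X (noD N n) := fun u v huv => h u v huv.1

/-- The functions `u`, `v` are the homogeneous coordinates of a nonconstant meromorphic map from
`ℂ ^ g` to the variety with the generic point `(z, b)`; they may have common zeros. -/
structure MeroMap (z : Fin (N + 1) → K) (b : Fin (n + 1) → K) (g : ℕ)
    (u : (Fin g → ℂ) → Fin (N + 1) → ℂ) (v : (Fin g → ℂ) → Fin (n + 1) → ℂ) : Prop where
  diffu : ∀ j, Differentiable ℂ fun p => u p j
  diffv : ∀ j, Differentiable ℂ fun p => v p j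
  neu : ∃ p, u p ≠ 0
  nev : ∃ p, v p ≠ 0
  mem : ∀ p, InVar z b (u p) (v p)
  nonconst : (∃ p p' i j, u p i * u p' j ≠ u p j * u p' i) ∨
    ∃ p p' i j, v p i * v p' j ≠ v p j * v p' i

/-- two nonzero entire functions and a third one -/
theorem third_zero {f g h : ℂ → ℂ} (hf : Differentiable ℂ f) (hg : Differentiable ℂ g)
    (hh : Differentiable ℂ h) (h0 : ∀ t, f t * g t * h t = 0) {t1 : ℂ} (hf1 : f t1 ≠ 0)
    (hg1 : g t1 ≠ 0) (t : ℂ) : h t = 0 := by
  obtain ⟨-, -, h2⟩ := prod_zero (Finset.univ : Finset Unit) (f := fun _ => h)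
    (g := fun t => f t * g t) (fun _ => hh) (hf.mul hg) (fun t => by
      rw [Finset.univ_unique, Finset.prod_singleton]
      exact h0 t) (mul_ne_zero hf1 hg1)
  exact h2 t

theorem mero_exc {q q0 d m : ℕ} (hnd : n + 1 ≤ d) (hnum : d * m + 1 * q0 < m * q0)
    (hq : q0 + 2 * (n + 1) ≤ q) {ℓ : Fin q → Fin (n + 1) → ℂ} (hℓ : GA d q0 n q ℓ)
    {X : BiSet N n} (hR : ∀ i, Ram m (ℓ i) X) {z : Fin (N + 1) → K} {b : Fin (n + 1) → K}
    (hz0 : z ≠ 0) (hb0 : b ≠ 0) (hX : ∀ P ∈ X.I, evK z b P = 0)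
    (halg : Algebra.IsAlgebraic (RF ℂ b) K) :
    ∃ R : BiPoly N n, BiHom R ∧ evK z b R ≠ 0 ∧ ∀ g u v, MeroMap z b g u v →
      ∀ p, ev2 (u p) (v p) R = 0 := by
  classical
  obtain ⟨R, hRh, hRne, hR0, hRc⟩ := exists_exc hz0 hb0 halg
  refine ⟨R, hRh, hRne, fun g u v h p0 => ?_⟩
  by_contra hcon
  obtain ⟨hu0, hv0⟩ := hR0 _ _ hcon
  have key : ∀ q, (∃ c : ℂ, u q = c • u p0) ∧ ∃ c : ℂ, v q = c • v p0 := by
    intro q
    let L : ℂ → Fin g → ℂ := fun s => p0 + s • (q - p0)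
    have hL : Differentiable ℂ L := by
      simp only [L]
      fun_prop
    have hL0 : L 0 = p0 := by simp [L]
    have hL1 : L 1 = q := by simp [L]
    have hud : ∀ j, Differentiable ℂ fun t => u (L t) j := fun j => (h.diffu j).comp hL
    have hvd : ∀ j, Differentiable ℂ fun t => v (L t) j := fun j => (h.diffv j).comp hL
    obtain ⟨U, hU1, hU2, hU3⟩ := exists_reduced (u := fun t => u (L t)) hud (t0 := 0)
      (by simp only [hL0]; exact hu0)
    obtain ⟨V, hV1, hV2, hV3⟩ := exists_reduced (u := fun t => v (L t)) hvd (t0 := 0)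
      (by simp only [hL0]; exact hv0)
    obtain ⟨i1, hi1⟩ : ∃ i, u p0 i ≠ 0 := by
      by_contra hc
      push Not at hc
      exact hu0 (funext hc)
    obtain ⟨j1, hj1⟩ : ∃ j, v p0 j ≠ 0 := by
      by_contra hc
      push Not at hc
      exact hv0 (funext hc)
    have hin : ∀ t, InVar z b (U t) (V t) := by
      intro t P hP hP0
      refine third_zero (f := fun t => u (L t) i1) (g := fun t => v (L t) j1)
        (h := fun t => ev2 (U t) (V t) P) (hud i1) (hvd j1) (ev2_diff hU1 hV1 P)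
        (fun t => ?_) (t1 := 0) (by simp only [hL0]; exact hi1) (by simp only [hL0]; exact hj1) t
      obtain ⟨c, hc, hc0⟩ := hU3 t
      obtain ⟨c', hc', hc0'⟩ := hV3 t
      by_cases h1 : u (L t) i1 = 0
      · rw [h1, zero_mul, zero_mul]
      by_cases h2 : v (L t) j1 = 0
      · rw [h2, mul_zero, zero_mul]
      have h3 := hc0 (fun h0 => h1 (congrFun h0 i1))
      have h4 := hc0' (fun h0 => h2 (congrFun h0 j1))
      have h5 := h.mem (L t) P hP hP0
      obtain ⟨α, β, hαβ⟩ := hP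
      rw [hc, hc', hαβ] at h5
      have h6 : c ^ α * c' ^ β ≠ 0 := mul_ne_zero (pow_ne_zero _ h3) (pow_ne_zero _ h4)
      rw [(mul_eq_zero.mp h5).resolve_left h6, mul_zero]
    have hmem : ∀ t, QMem X (noD N n) (U t) (V t) := fun t =>
      ⟨⟨hU2 t, hV2 t, fun P hP => hin t P (X.hom P hP) (hX P hP)⟩, not_mem_noD _ _⟩
    have hVc := curve_const hnd hnum hq hℓ (fun i => (hR i).at) hU1 hV1 hmem
    have hR1 : ev2 (U 0) (V 0) R ≠ 0 := by
      intro h0
      apply hcon
      obtain ⟨c, hc, -⟩ := hU3 0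
      obtain ⟨c', hc', -⟩ := hV3 0
      simp only [hL0] at hc hc'
      obtain ⟨α, β, hαβ⟩ := hRh
      rw [hc, hc', hαβ, h0, mul_zero]
    have hUc := hRc U V hU1 hV2 hin hVc 0 hR1
    constructor
    · obtain ⟨c, hc, -⟩ := hU3 1
      obtain ⟨c0, hc0, hc0'⟩ := hU3 0
      obtain ⟨c1, hc1⟩ := hUc 1
      simp only [hL0] at hc0 hc0'
      simp only [hL1] at hc
      have h7 := hc0' hu0
      refine ⟨c * c1 * c0⁻¹, ?_⟩
      rw [hc, hc1, hc0]
      simp only [smul_smul]
      congr 1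
      field_simp
    · obtain ⟨c, hc, -⟩ := hV3 1
      obtain ⟨c0, hc0, hc0'⟩ := hV3 0
      obtain ⟨c1, hc1⟩ := hVc 0 1
      simp only [hL0] at hc0 hc0'
      simp only [hL1] at hc
      have h7 := hc0' hv0
      refine ⟨c * c1 * c0⁻¹, ?_⟩
      rw [hc, hc1, hc0]
      simp only [smul_smul]
      congr 1
      field_simp
  rcases h.nonconst with ⟨p, p', i, j, hne⟩ | ⟨p, p', i, j, hne⟩
  · apply hne
    obtain ⟨c, hc⟩ := (key p).1
    obtain ⟨c', hc'⟩ := (key p').1
    rw [hc, hc']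
    simp only [Pi.smul_apply, smul_eq_mul]
    ring
  · apply hne
    obtain ⟨c, hc⟩ := (key p).2
    obtain ⟨c', hc'⟩ := (key p').2
    rw [hc, hc']
    simp only [Pi.smul_apply, smul_eq_mul]
    ring

end Pool.Agent.V8H90.LG
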