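import Pool.Agent.V8H90.LG.Lift
import Pool.Agent.V8H90.LG.Mero
import Pool.Agent.V8H90.JT.Geo

/-!
Varieties with finite fibres over projective space.
-/

set_option autoImplicit false

namespace Pool.Agent.V8H90.LG

open MvPolynomial Pool.Agent.W601.SM Pool.Agent.V8H90.JT
open Pool.Agent.Y191 (RF)

variable {N n : ℕ} {K : Type} [Field K] [Algebra ℂ K]

theorem maximal_alg {S u : Set K} (hu : Maximal (fun x : Set K => AlgebraicIndepOn ℂ id x ∧ x ⊆ S) u)
    {x : K} (hx : x ∈ S) : IsAlgebraic (Algebra.adjoin ℂ u) x := by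
  by_contra hcon
  have h1 : AlgebraicIndepOn ℂ id (insert x u) := by
    refine AlgebraicIndepOn.insert hu.prop.1 ?_
    rw [Set.image_id]
    exact hcon
  have h2 := hu.le_of_ge ⟨h1, Set.insert_subset hx hu.prop.2⟩ (Set.subset_insert x u)
  have h3 : x ∈ u := h2 (Set.mem_insert x u)
  exact hcon (isAlgebraic_algebraMap (⟨x, Algebra.subset_adjoin h3⟩ : Algebra.adjoin ℂ u))

/-- **Finite fibres.** -/
theorem alg_of_finite {X : BiSet N n} (hf : FiniteFibres X) {z : Fin (N + 1) → K}
    {b : Fin (n + 1) → K} (hX : ∀ P ∈ X.I, evK z b P = 0) {i0 : Fin (N + 1)} (hi0 : z i0 ≠ 0)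
    {j0 : Fin (n + 1)} (hj0 : b j0 ≠ 0) (i : Fin (N + 1)) :
    IsAlgebraic (RF ℂ b) (z i / z i0) := by
  classical
  by_contra hcon
  set z' : Fin (N + 1) → K := fun k => z k / z i0 with hz'
  set b' : Fin (n + 1) → K := fun j => b j / b j0 with hb'
  obtain ⟨u1, -, hu1⟩ := exists_maximal_algebraicIndependent (R := ℂ) (∅ : Set K) (Set.range b')
    (Set.empty_subset _) ((algebraicIndependent_empty_iff ℂ K).mpr (algebraMap ℂ K).injective)
  have h1 : ∀ j, IsAlgebraic (Algebra.adjoin ℂ u1) (b' j) := fun j =>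
    maximal_alg hu1 (Set.mem_range_self j)
  set β : K := z' i with hβ
  have hle : Algebra.adjoin ℂ u1 ≤ (RF ℂ b).toSubalgebra := by
    rw [Algebra.adjoin_le_iff]
    intro x hx
    obtain ⟨j, rfl⟩ := hu1.prop.2 hx
    exact IntermediateField.subset_adjoin ℂ _ ⟨j, j0, hj0, rfl⟩
  have hβt : Transcendental (Algebra.adjoin ℂ u1) β := by
    intro h
    exact hcon (IsAlgebraic.tower_top_of_subalgebra_le hle h)
  have hβu : β ∉ u1 := fun h =>
    hβt (isAlgebraic_algebraMap (⟨β, Algebra.subset_adjoin h⟩ : Algebra.adjoin ℂ u1))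
  have hins : AlgebraicIndepOn ℂ id (insert β u1) := by
    refine AlgebraicIndepOn.insert hu1.prop.1 ?_
    rw [Set.image_id]
    exact hβt
  obtain ⟨u2, hsub, hu2⟩ := exists_maximal_algebraicIndependent (R := ℂ) (insert β u1)
    (insert β u1 ∪ (Set.range z' ∪ Set.range b')) Set.subset_union_left hins
  have hu12 : u1 ⊆ u2 := (Set.subset_insert β u1).trans hsub
  have hβ2 : β ∈ u2 := hsub (Set.mem_insert β u1)
  have hy : AlgebraicIndependent ℂ (fun x : u2 => (x : K)) := hu2.prop.1
  have hrange : Set.range (fun x : u2 => (x : K)) = u2 := Subtype.range_coe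
  obtain ⟨a, ha0, ha⟩ := lift_pt hy (s := Sum.elim z' b') (fun k => by
    rw [hrange]
    refine maximal_alg hu2 (Or.inr ?_)
    rcases k with k | k
    · exact Or.inl ⟨k, rfl⟩
    · exact Or.inr ⟨k, rfl⟩)
  -- the relations for the second coordinates
  have hrel : ∀ j, ∃ (D : ℕ) (c : ℕ → MvPolynomial u1 ℂ), c D ≠ 0 ∧
      ∑ k ∈ Finset.range (D + 1), aeval (fun x : u1 => (x : K)) (c k) * b' j ^ k = 0 := by
    intro j
    obtain ⟨p, hp0, hp⟩ := h1 j
    have h2 : ∀ k, ∃ c : MvPolynomial u1 ℂ, aeval (fun x : u1 => (x : K)) c =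
        ((p.coeff k : Algebra.adjoin ℂ u1) : K) := by
      intro k
      have h3 := (p.coeff k).2
      have h4 := Algebra.adjoin_eq_range ℂ u1
      exact h4.le h3
    choose c hc using h2
    refine ⟨p.natDegree, c, ?_, ?_⟩
    · intro h0
      have h3 := hc p.natDegree
      rw [h0, map_zero] at h3
      have h4 : p.coeff p.natDegree = 0 := Subtype.ext h3.symm
      exact hp0 (Polynomial.leadingCoeff_eq_zero.mp h4)
    · rw [Polynomial.aeval_eq_sum_range] at hp
      rw [← hp]
      refine Finset.sum_congr rfl fun k _ => ?_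
      rw [hc k]
      rfl
  choose D c hcD hcr using hrel
  set ι1 : u1 → u2 := Set.inclusion hu12 with hι1
  have hι1i : Function.Injective ι1 := Set.inclusion_injective hu12
  -- the point
  obtain ⟨c0, hc0⟩ : ∃ c0 : u2 → ℂ, eval c0 (a * ∏ j, rename ι1 (c j (D j))) ≠ 0 := by
    by_contra hcon2
    push Not at hcon2
    have h2 : a * ∏ j, rename ι1 (c j (D j)) ≠ 0 := by
      refine mul_ne_zero ha0 (Finset.prod_ne_zero_iff.mpr fun j _ => ?_)
      rw [Ne, map_eq_zero_iff _ (rename_injective _ hι1i)]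
      exact hcD j
    exact h2 (MvPolynomial.funext fun x => by rw [hcon2 x, map_zero])
  rw [map_mul, map_prod] at hc0
  have hca := left_ne_zero_of_mul hc0
  have hcl : ∀ j, eval (fun x => c0 (ι1 x)) (c j (D j)) ≠ 0 := by
    intro j
    have h2 := Finset.prod_ne_zero_iff.mp (right_ne_zero_of_mul hc0) j (Finset.mem_univ j)
    rwa [eval_rename] at h2
  set β2 : u2 := ⟨β, hβ2⟩ with hβ2d
  let ct : ℂ → u2 → ℂ := fun t => Function.update c0 β2 t
  have hct1 : ∀ t (x : u1), ct t (ι1 x) = c0 (ι1 x) := by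
    intro t x
    refine Function.update_of_ne (fun h => hβu ?_) _ _
    have h2 := congrArg (fun y : u2 => (y : K)) h
    change (x : K) = β at h2
    rw [← h2]
    exact x.2
  -- infinitely many values
  let qa : Polynomial ℂ := aeval (fun x : u2 => if x = β2 then (Polynomial.X : Polynomial ℂ)
    else Polynomial.C (c0 x)) a
  have hqa : ∀ t, qa.eval t = eval (ct t) a := by
    intro t
    have h2 : (Polynomial.evalRingHom t).comp (aeval (fun x : u2 => if x = β2 then
        (Polynomial.X : Polynomial ℂ) else Polynomial.C (c0 x)) :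
          MvPolynomial u2 ℂ →ₐ[ℂ] Polynomial ℂ).toRingHom = eval (ct t) := by
      apply MvPolynomial.ringHom_ext
      · intro r
        simp [Polynomial.algebraMap_eq]
      · intro x
        by_cases hx : x = β2
        · subst hx
          simp [ct]
        · simp [ct, hx]
    exact congrArg (fun f : MvPolynomial u2 ℂ →+* ℂ => f a) h2
  have hqa0 : qa ≠ 0 := by
    intro h0
    apply hca
    have h2 := hqa (c0 β2)
    rw [h0, Polynomial.eval_zero] at h2
    have h3 : ct (c0 β2) = c0 := Function.update_eq_self _ _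
    rw [h3] at h2
    exact h2.symm
  have hCinf : {t : ℂ | eval (ct t) a ≠ 0}.Infinite := by
    have h2 : {t : ℂ | eval (ct t) a ≠ 0} = {t : ℂ | qa.eval t = 0}ᶜ := by
      ext t
      rw [Set.mem_ofPred_eq, Set.mem_compl_iff, Set.mem_ofPred_eq, hqa]
    rw [h2]
    refine Set.Finite.infinite_compl ?_
    have h3 : {t : ℂ | qa.eval t = 0} ⊆ (qa.roots.toFinset : Set ℂ) := by
      intro t ht
      rw [Finset.mem_coe, Multiset.mem_toFinset, Polynomial.mem_roots hqa0]
      exact ht
    exact Set.Finite.subset (Finset.finite_toSet _) h3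
  choose w hw using fun t => ha (ct t)
  have hwi0 : ∀ t ht, w t ht (Sum.inl i0) = 1 := by
    intro t ht
    have h2 := hw t ht (MvPolynomial.X (Sum.inr (Sum.inl i0)) - 1) (by
      rw [map_sub, aeval_X, map_one]
      simp [hz', div_self hi0])
    rw [map_sub, aeval_X, map_one, sub_eq_zero] at h2
    exact h2
  have hwj0 : ∀ t ht, w t ht (Sum.inr j0) = 1 := by
    intro t ht
    have h2 := hw t ht (MvPolynomial.X (Sum.inr (Sum.inr j0)) - 1) (by
      rw [map_sub, aeval_X, map_one]
      simp [hb', div_self hj0])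
    rw [map_sub, aeval_X, map_one, sub_eq_zero] at h2
    exact h2
  have hwi : ∀ t ht, w t ht (Sum.inl i) = t := by
    intro t ht
    have h2 := hw t ht (MvPolynomial.X (Sum.inr (Sum.inl i)) - MvPolynomial.X (Sum.inl β2)) (by
      rw [map_sub, aeval_X, aeval_X]
      simp [hβ2d, hβ])
    rw [map_sub, aeval_X, aeval_X, sub_eq_zero] at h2
    have h3 : ct t β2 = t := Function.update_self _ _ _
    change w t ht (Sum.inl i) = ct t β2 at h2
    rw [h2, h3]
  have hwX : ∀ t ht, X.Mem (fun k => w t ht (Sum.inl k)) (fun j => w t ht (Sum.inr j)) := by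
    intro t ht
    refine ⟨fun h0 => ?_, fun h0 => ?_, fun P hP => ?_⟩
    · have h2 := congrFun h0 i0
      simp only [hwi0, Pi.zero_apply] at h2
      exact one_ne_zero h2
    · have h2 := congrFun h0 j0
      simp only [hwj0, Pi.zero_apply] at h2
      exact one_ne_zero h2
    · have h2 := hw t ht (rename Sum.inr P) (by
        rw [aeval_rename]
        have h3 := mem_norm (i0 := i0) (j0 := j0) hX P hP
        exact h3)
      rw [aeval_rename] at h2
      unfold ev2
      rw [← coe_aeval_eq_eval, RingHom.coe_coe]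
      have h3 : Sum.elim (fun k => w t ht (Sum.inl k)) (fun j => w t ht (Sum.inr j)) =
          Sum.elim (ct t) (w t ht) ∘ Sum.inr := by
        funext x
        rcases x with x | x <;> rfl
      rw [h3]
      exact h2
  -- the second coordinates have finitely many values
  let r : Fin (n + 1) → Polynomial ℂ := fun j => ∑ k ∈ Finset.range (D j + 1),
    Polynomial.C (eval (fun x => c0 (ι1 x)) (c j k)) * Polynomial.X ^ k
  have hr0 : ∀ j, r j ≠ 0 := by
    intro j h0
    have h2 := congrArg (fun q => q.coeff (D j)) h0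
    simp only [r, Polynomial.finsetSum_coeff, Polynomial.coeff_C_mul, Polynomial.coeff_X_pow,
      Polynomial.coeff_zero] at h2
    rw [Finset.sum_eq_single (D j) (fun k _ hk => by rw [if_neg (Ne.symm hk), mul_zero])
      (fun hd => absurd (Finset.self_mem_range_succ (D j)) hd), if_pos rfl, mul_one] at h2
    exact hcl j h2
  have hwr : ∀ t ht j, w t ht (Sum.inr j) ∈ (r j).roots.toFinset := by
    intro t ht j
    rw [Multiset.mem_toFinset, Polynomial.mem_roots (hr0 j), Polynomial.IsRoot.def]
    have h2 := hw t ht (∑ k ∈ Finset.range (D j + 1),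
      rename (fun x => Sum.inl (ι1 x)) (c j k) * MvPolynomial.X (Sum.inr (Sum.inr j)) ^ k) (by
        rw [map_sum, ← hcr j]
        refine Finset.sum_congr rfl fun k _ => ?_
        rw [map_mul, map_pow, aeval_X, aeval_rename]
        rfl)
    rw [map_sum] at h2
    simp only [r]
    rw [Polynomial.eval_finsetSum, ← h2]
    refine Finset.sum_congr rfl fun k _ => ?_
    rw [map_mul, map_pow, aeval_X, aeval_rename, Polynomial.eval_mul, Polynomial.eval_C,
      Polynomial.eval_pow, Polynomial.eval_X]
    congr 1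
    rw [← coe_aeval_eq_eval, RingHom.coe_coe]
    congr 1
    congr 1
    funext x
    exact (hct1 t x).symm
  -- the contradiction
  apply hCinf
  choose T hT using hf
  have hcover : {t : ℂ | eval (ct t) a ≠ 0} ⊆ ⋃ v0 ∈ (Fintype.piFinset
      fun j => (r j).roots.toFinset : Finset (Fin (n + 1) → ℂ)),
      ((fun s : Fin (N + 1) → ℂ => s i / s i0) '' (T v0 : Set (Fin (N + 1) → ℂ))) := by
    intro t ht
    rw [Set.mem_iUnion₂]
    refine ⟨fun j => w t ht (Sum.inr j), ?_, ?_⟩
    · rw [Fintype.mem_piFinset]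
      exact hwr t ht
    · obtain ⟨s, hs, e, he⟩ := hT _ _ (hwX t ht)
      refine ⟨s, hs, ?_⟩
      have h2 := congrFun he i0
      have h3 := congrFun he i
      simp only [Pi.smul_apply, smul_eq_mul, hwi0, hwi] at h2 h3
      have h4 : s i0 ≠ 0 := by
        intro h0
        rw [h0, mul_zero] at h2
        exact one_ne_zero h2
      simp only
      rw [div_eq_iff h4, h3]
      linear_combination (s i) * h2
  refine Set.Finite.subset ?_ hcover
  refine Set.Finite.biUnion (Finset.finite_toSet _) fun v0 _ => ?_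
  exact (Finset.finite_toSet _).image _

end Pool.Agent.V8H90.LG
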