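import Mathlib

/-!
Lifting of points along dominant maps.
-/

set_option autoImplicit false

namespace Pool.Agent.V8H90.LG

open MvPolynomial

/-- A homomorphism to the complex numbers extends to integral extensions. -/
theorem extend_hom {A B : Type*} [CommRing A] [CommRing B] [Algebra ℂ A] [Algebra ℂ B]
    [Algebra A B] [IsScalarTower ℂ A B] [Algebra.IsIntegral A B]
    (hinj : Function.Injective (algebraMap A B)) (φ : A →ₐ[ℂ] ℂ) :
    ∃ ψ : B →ₐ[ℂ] ℂ, ∀ a, ψ (algebraMap A B a) = φ a := by
  have hsurj : Function.Surjective φ := fun c => ⟨algebraMap ℂ A c, φ.commutes c⟩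
  have hmax : (RingHom.ker φ).IsMaximal := RingHom.ker_isMaximal_of_surjective φ hsurj
  obtain ⟨Q, hQ, hQP⟩ := Ideal.exists_ideal_over_maximal_of_isIntegral (S := B) (RingHom.ker φ)
    (by rw [(RingHom.injective_iff_ker_eq_bot _).mp hinj]; exact bot_le)
  let : Field (B ⧸ Q) := Ideal.Quotient.field Q
  have hcomm : ∀ a : A, Ideal.Quotient.mk Q (algebraMap A B a) =
      algebraMap ℂ (B ⧸ Q) (φ a) := by
    intro a
    have h1 : a - algebraMap ℂ A (φ a) ∈ RingHom.ker φ := by
      rw [RingHom.mem_ker, map_sub, AlgHom.commutes]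
      exact sub_self _
    rw [← hQP, Ideal.mem_comap, map_sub, ← Ideal.Quotient.eq_zero_iff_mem, map_sub,
      sub_eq_zero] at h1
    rw [h1, ← IsScalarTower.algebraMap_apply]
    rfl
  have hint : Algebra.IsIntegral ℂ (B ⧸ Q) := by
    refine ⟨fun x => ?_⟩
    obtain ⟨b, rfl⟩ := Ideal.Quotient.mk_surjective x
    obtain ⟨f, hf, hfb⟩ := Algebra.IsIntegral.isIntegral (R := A) b
    refine ⟨f.map φ.toRingHom, hf.map _, ?_⟩
    rw [Polynomial.eval₂_map]
    have h2 : (algebraMap ℂ (B ⧸ Q)).comp φ.toRingHom =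
        (Ideal.Quotient.mk Q).comp (algebraMap A B) := by
      ext a
      exact (hcomm a).symm
    rw [h2, ← Polynomial.hom_eval₂, hfb, map_zero]
  have hbij : Function.Bijective (algebraMap ℂ (B ⧸ Q)) :=
    IsAlgClosed.algebraMap_bijective_of_isIntegral
  let e : ℂ ≃ₐ[ℂ] (B ⧸ Q) := AlgEquiv.ofBijective (Algebra.ofId ℂ (B ⧸ Q)) hbij
  refine ⟨e.symm.toAlgHom.comp (Ideal.Quotient.mkₐ ℂ Q), fun a => ?_⟩
  change e.symm (Ideal.Quotient.mk Q (algebraMap A B a)) = φ a
  rw [hcomm a]
  exact e.symm_apply_apply (φ a)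

/-- **Lifting of points.** -/
theorem lift_pt {K : Type} [Field K] [Algebra ℂ K] {τ σ : Type} [Finite σ] {y : τ → K}
    (hy : AlgebraicIndependent ℂ y) {s : σ → K}
    (hs : ∀ i, IsAlgebraic (Algebra.adjoin ℂ (Set.range y)) (s i)) :
    ∃ a : MvPolynomial τ ℂ, a ≠ 0 ∧ ∀ c : τ → ℂ, eval c a ≠ 0 → ∃ w : σ → ℂ,
      ∀ P : MvPolynomial (τ ⊕ σ) ℂ, aeval (Sum.elim y s) P = 0 → aeval (Sum.elim c w) P = 0 := by
  classical
  let A := MvPolynomial τ ℂ
  let algAK : Algebra A K := (aeval y : A →ₐ[ℂ] K).toAlgebra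
  have hAK : ∀ p : A, algebraMap A K p = aeval y p := fun p => rfl
  have hinj : Function.Injective (algebraMap A K) := hy
  have : IsScalarTower ℂ A K := IsScalarTower.of_algebraMap_eq fun c => by
    rw [hAK]
    exact ((aeval y : A →ₐ[ℂ] K).commutes c).symm
  have : FaithfulSMul A K := (faithfulSMul_iff_algebraMap_injective A K).mpr hinj
  have : Module.IsTorsionFree A K := inferInstance
  -- the elements are algebraic over `A`
  have hs' : ∀ i, IsAlgebraic A (s i) := by
    intro i
    obtain ⟨p, hp0, hp⟩ := hs i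
    let e : A ≃ₐ[ℂ] Algebra.adjoin ℂ (Set.range y) := hy.aevalEquiv
    have he : ∀ x : Algebra.adjoin ℂ (Set.range y), aeval y (e.symm x) = (x : K) := by
      intro x
      have h1 := hy.algebraMap_aevalEquiv (e.symm x)
      rw [← h1]
      change ((e (e.symm x) : Algebra.adjoin ℂ (Set.range y)) : K) = x
      rw [e.apply_symm_apply]
    refine ⟨p.map (e.symm : Algebra.adjoin ℂ (Set.range y) →+* A), ?_, ?_⟩
    · rw [Ne, Polynomial.map_eq_zero_iff]
      · exact hp0
      · exact e.symm.injective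
    · rw [Polynomial.aeval_def, Polynomial.eval₂_map]
      have h2 : (algebraMap A K).comp (e.symm : Algebra.adjoin ℂ (Set.range y) →+* A) =
          algebraMap (Algebra.adjoin ℂ (Set.range y)) K := by
        ext x
        exact he x
      rw [h2]
      exact hp
  have := Fintype.ofFinite σ
  -- common denominators
  have hden : ∀ i, ∃ r : A, r ≠ 0 ∧ IsIntegral A (r • s i) := fun i =>
    (hs' i).exists_integral_multiple
  choose r hr0 hr using hden
  refine ⟨∏ i, r i, Finset.prod_ne_zero_iff.mpr fun i _ => hr0 i, fun c hc => ?_⟩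
  set a : A := ∏ i, r i with ha
  have ha0 : a ≠ 0 := Finset.prod_ne_zero_iff.mpr fun i _ => hr0 i
  let A' := Localization.Away a
  have hunit : IsUnit (algebraMap A K a) := by
    rw [isUnit_iff_ne_zero]
    intro h0
    exact ha0 (hinj (by rw [h0, map_zero]))
  let j : A' →+* K := IsLocalization.Away.lift a hunit
  let algA'K : Algebra A' K := j.toAlgebra
  have hj : ∀ x : A, algebraMap A' K (algebraMap A A' x) = algebraMap A K x := fun x =>
    IsLocalization.Away.lift_eq a hunit x
  have : IsScalarTower A A' K := IsScalarTower.of_algebraMap_eq fun x => (hj x).symm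
  have : IsScalarTower ℂ A' K := IsScalarTower.of_algebraMap_eq fun x => by
    rw [IsScalarTower.algebraMap_apply ℂ A K, ← hj, ← IsScalarTower.algebraMap_apply ℂ A A']
  have hinj' : Function.Injective (algebraMap A' K) := by
    rw [injective_iff_map_eq_zero]
    intro x hx
    obtain ⟨⟨p, t⟩, hpt⟩ := IsLocalization.surj (Submonoid.powers a) x
    have h1 := congrArg (algebraMap A' K) hpt
    rw [map_mul, hx, zero_mul, hj] at h1
    have h2 : p = 0 := hinj (by rw [← h1, map_zero])
    simp only at hpt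
    rw [h2, map_zero] at hpt
    exact (IsLocalization.map_units A' t).mul_left_eq_zero.mp hpt
  let B := integralClosure A' K
  have : Algebra.IsIntegral A' B := inferInstance
  -- the point
  let φ0 : A →ₐ[ℂ] ℂ := aeval c
  have hφa : IsUnit (φ0 a) := by
    rw [isUnit_iff_ne_zero]
    exact hc
  let φr : A' →+* ℂ := IsLocalization.Away.lift a (g := φ0.toRingHom) hφa
  have hφr : ∀ x : A, φr (algebraMap A A' x) = φ0 x := fun x =>
    IsLocalization.Away.lift_eq a hφa x
  let φ : A' →ₐ[ℂ] ℂ :=
    { φr with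
      commutes' := fun x => by
        change φr (algebraMap ℂ A' x) = _
        rw [IsScalarTower.algebraMap_apply ℂ A A', hφr]
        exact φ0.commutes x }
  have hφ : ∀ x : A, φ (algebraMap A A' x) = aeval c x := hφr
  obtain ⟨ψ, hψ⟩ := extend_hom (A := A') (B := B) (by
    intro x z h
    apply hinj'
    have h1 := congrArg (fun t : B => (t : K)) h
    exact h1) φ
  -- the elements
  have hsB : ∀ i, s i ∈ B := by
    intro i
    change IsIntegral A' (s i)
    have h1 : IsIntegral A' (r i • s i) := (hr i).tower_top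
    have hu : IsUnit (algebraMap A A' (r i)) := by
      have h2 : IsUnit (algebraMap A A' a) := IsLocalization.Away.algebraMap_isUnit a
      have h3 : r i ∣ a := Finset.dvd_prod_of_mem r (Finset.mem_univ i)
      exact isUnit_of_dvd_unit (map_dvd _ h3) h2
    obtain ⟨t, ht⟩ := hu.exists_left_inv
    have h3 : s i = t • (r i • s i) := by
      rw [Algebra.smul_def, Algebra.smul_def, ← hj, ← mul_assoc, ← map_mul, ht, map_one, one_mul]
    rw [h3]
    exact h1.smul t
  have hyB : ∀ k, y k ∈ B := by
    intro k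
    change IsIntegral A' (y k)
    have h1 : y k = algebraMap A' K (algebraMap A A' (X k)) := by
      rw [hj, hAK, aeval_X]
    rw [h1]
    exact isIntegral_algebraMap
  refine ⟨fun i => ψ ⟨s i, hsB i⟩, fun P hP => ?_⟩
  let g : τ ⊕ σ → B := Sum.elim (fun k => ⟨y k, hyB k⟩) fun i => ⟨s i, hsB i⟩
  let ιB : B →ₐ[ℂ] K := (B.val).restrictScalars ℂ
  have h1 : aeval (Sum.elim y s) P = ιB (aeval g P) := by
    have h2 : ιB (aeval g P) = aeval (fun x => ιB (g x)) P := by
      rw [← comp_aeval_apply]
    rw [h2]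
    congr 1
    congr 1
    funext x
    rcases x with x | x <;> rfl
  have h2 : aeval g P = 0 := by
    rw [h1] at hP
    exact Subtype.ext hP
  have h3 : aeval (Sum.elim c fun i => ψ ⟨s i, hsB i⟩) P = ψ (aeval g P) := by
    have h5 : (Sum.elim c fun i => ψ ⟨s i, hsB i⟩) = fun x => ψ (g x) := by
      funext x
      rcases x with x | x
      · change c x = ψ ⟨y x, hyB x⟩
        have h4 : (⟨y x, hyB x⟩ : B) = algebraMap A' B (algebraMap A A' (X x)) := by
          apply Subtype.ext
          change y x = algebraMap A' K (algebraMap A A' (X x))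
          rw [hj, hAK, aeval_X]
        rw [h4, hψ, hφ, aeval_X]
      · rfl
    rw [h5, ← comp_aeval_apply]
  rw [h3, h2, map_zero]

end Pool.Agent.V8H90.LG
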