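import Pool.Agent.Y221.AB.Wei

/-!
Removal of the common zeros of entire functions.
-/

set_option autoImplicit false

namespace Pool.Agent.V8H90.LG

open Filter Topology Pool.Agent.Y221.AB Pool.Agent.TH143.EL

/-- entire functions with common zeros -/
theorem exists_reduced {M : ℕ} {u : ℂ → Fin (M + 1) → ℂ} (hu : ∀ i, Differentiable ℂ fun t => u t i)
    {t0 : ℂ} (h0 : u t0 ≠ 0) :
    ∃ U : ℂ → Fin (M + 1) → ℂ, (∀ i, Differentiable ℂ fun t => U t i) ∧ (∀ t, U t ≠ 0) ∧
      ∀ t, ∃ c : ℂ, u t = c • U t ∧ (u t ≠ 0 → c ≠ 0) := by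
  classical
  have hmer : ∀ i, Meromorphic (fun t => u t i) := fun i t => ((hu i).analyticAt t).meromorphicAt
  obtain ⟨i0, hi0⟩ : ∃ i0, u t0 i0 ≠ 0 := by
    by_contra hcon
    push Not at hcon
    exact h0 (funext hcon)
  have hcu : ∀ i, Continuous (fun t => u t i) := fun i => (hu i).continuous
  have hcl0 : cl (fun t => u t i0) (hmer i0) ≠ 0 := by
    intro h1
    rw [cl_eq_zero] at h1
    exact hi0 (eq_of_codis (g := fun _ => 0) h1 (hcu i0).continuousAt continuousAt_const)
  let v : Fin (M + 1) → MK := fun i => cl (fun t => u t i) (hmer i) /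
    cl (fun t => u t i0) (hmer i0)
  have hv0 : v i0 = 1 := div_self hcl0
  obtain ⟨e, U, hU⟩ := exists_nrm v hv0
  have hUan : ∀ i z, AnalyticAt ℂ (U i) z := fun i z => by
    rw [hU.eq]
    exact hU.reg i z
  -- the ratios
  have hrat : ∀ i j t, U i t * u t j = U j t * u t i := by
    intro i j t
    have h1 : (e * v i) * cl (fun t => u t j) (hmer j) =
        (e * v j) * cl (fun t => u t i) (hmer i) := by
      simp only [v]
      ring
    rw [← cl_Fn (e * v i), ← cl_Fn (e * v j), cl_mul, cl_mul, cl_eq] at h1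
    refine eq_of_codis (f := fun t => U i t * u t j) (g := fun t => U j t * u t i) ?_
      ((hUan i t).continuousAt.mul (hcu j).continuousAt)
      ((hUan j t).continuousAt.mul (hcu i).continuousAt)
    filter_upwards [h1] with z hz
    rw [hU.eq, hU.eq]
    exact hz
  refine ⟨fun t i => U i t, fun i z => (hUan i z).differentiableAt, fun t h1 => ?_, fun t => ?_⟩
  · obtain ⟨l, hl⟩ := hU.nz t
    exact hl (congrFun h1 l)
  · by_cases hut : u t = 0
    · exact ⟨0, by rw [hut, zero_smul], fun h => absurd hut h⟩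
    · obtain ⟨k, hk⟩ : ∃ k, u t k ≠ 0 := by
        by_contra hcon
        push Not at hcon
        exact hut (funext hcon)
      obtain ⟨l, hl⟩ := hU.nz t
      have hkl := hrat k l t
      have hUk : U k t ≠ 0 := by
        intro h1
        rw [h1, zero_mul] at hkl
        exact (mul_ne_zero hl hk) hkl.symm
      refine ⟨u t k / U k t, ?_, fun _ => div_ne_zero hk hUk⟩
      funext i
      rw [Pi.smul_apply, smul_eq_mul]
      have := hrat k i t
      field_simp
      linear_combination this

end Pool.Agent.V8H90.LG
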