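import Pool.Agent.V8H90.LG.Alg
import Pool.Agent.W601.PH.Quasi

/-!
Points with coordinates in function fields of quasi-projective varieties over projective space, and
multiplicities.
-/

set_option autoImplicit false

namespace Pool.Agent.V8H90.LG

open FF MvPolynomial Pool.Agent.W602.GT Pool.Agent.V8H90.AJ Pool.Agent.W601.SM Pool.Agent.W601.PH

variable {N n : ℕ} {K : Type} [Field K] [Algebra ℂ K]

/-- the value of a polynomial at a point with coordinates in `K` -/
noncomputable def evK (z : Fin (N + 1) → K) (b : Fin (n + 1) → K) (P : BiPoly N n) : K :=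
  aeval (Sum.elim z b) P

/-- `(z, b)` is a point of `X - D` with coordinates in `K`. -/
structure KPt (X D : BiSet N n) (z : Fin (N + 1) → K) (b : Fin (n + 1) → K) : Prop where
  z0 : z ≠ 0
  b0 : b ≠ 0
  mem : ∀ P ∈ X.I, evK z b P = 0
  out : ∃ Q ∈ D.I, evK z b Q ≠ 0

/-- The centre of the place is not contained in `D`: some equation of `D` does not vanish at the
point with the homogeneous coordinates `z`, `b`, divided by the ones with the smallest order. -/
def Centred (D : BiSet N n) (P : Place ℂ K) (z : Fin (N + 1) → K) (b : Fin (n + 1) → K) : Prop :=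
  ∃ i0 j0, z i0 ≠ 0 ∧ b j0 ≠ 0 ∧ (∀ i, P.Reg (z i / z i0)) ∧ (∀ j, P.Reg (b j / b j0)) ∧
    ∃ Q ∈ D.I, evK (fun i => z i / z i0) (fun j => b j / b j0) Q ≠ 0 ∧
      P.ord (evK (fun i => z i / z i0) (fun j => b j / b j0) Q) = 0

theorem evK_mul (z : Fin (N + 1) → K) (b : Fin (n + 1) → K) (P Q : BiPoly N n) :
    evK z b (P * Q) = evK z b P * evK z b Q := map_mul _ _ _

theorem evK_add (z : Fin (N + 1) → K) (b : Fin (n + 1) → K) (P Q : BiPoly N n) :
    evK z b (P + Q) = evK z b P + evK z b Q := map_add _ _ _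

theorem evK_sub (z : Fin (N + 1) → K) (b : Fin (n + 1) → K) (P Q : BiPoly N n) :
    evK z b (P - Q) = evK z b P - evK z b Q := map_sub _ _ _

theorem evK_zero (z : Fin (N + 1) → K) (b : Fin (n + 1) → K) :
    evK z b (0 : BiPoly N n) = 0 := map_zero _

/-- the linear form as a polynomial -/
noncomputable def linB (a : Fin (n + 1) → ℂ) : BiPoly N n := ∑ j, C (a j) * X (Sum.inr j)

theorem evK_linB (z : Fin (N + 1) → K) (b : Fin (n + 1) → K) (a : Fin (n + 1) → ℂ) :
    evK z b (linB a) = lf a b := by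
  unfold evK linB lf
  rw [map_sum]
  refine Finset.sum_congr rfl fun j _ => ?_
  rw [map_mul, aeval_C, aeval_X, Sum.elim_inr]

theorem ev2_linB (u : Fin (N + 1) → ℂ) (v : Fin (n + 1) → ℂ) (a : Fin (n + 1) → ℂ) :
    ev2 u v (linB a) = ∑ j, a j * v j := by
  unfold ev2 linB
  rw [map_sum]
  refine Finset.sum_congr rfl fun j _ => ?_
  rw [map_mul, eval_C, eval_X, Sum.elim_inr]

/-- bihomogeneous polynomials at points with coordinates in a field -/
theorem BiHom.evK {P : BiPoly N n} (h : BiHom P) : ∃ a b : ℕ, ∀ (s t : K) (z : Fin (N + 1) → K)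
    (w : Fin (n + 1) → K), evK (s • z) (t • w) P = s ^ a * t ^ b * evK z w P := by
  obtain ⟨a, b, hab⟩ := h
  refine ⟨a, b, fun s t z w => ?_⟩
  let L : MvPolynomial (Fin 2 ⊕ (Fin (N + 1) ⊕ Fin (n + 1))) ℂ :=
    bind₁ (Sum.elim (fun i => X (Sum.inl 0) * X (Sum.inr (Sum.inl i)))
      (fun j => X (Sum.inl 1) * X (Sum.inr (Sum.inr j)))) P
  let R : MvPolynomial (Fin 2 ⊕ (Fin (N + 1) ⊕ Fin (n + 1))) ℂ :=
    X (Sum.inl 0) ^ a * X (Sum.inl 1) ^ b * rename Sum.inr P
  have hLR : L = R := by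
    apply MvPolynomial.funext
    intro x
    have h1 := hab (x (Sum.inl 0)) (x (Sum.inl 1)) (fun i => x (Sum.inr (Sum.inl i)))
      (fun j => x (Sum.inr (Sum.inr j)))
    have h2 : eval x L = ev2 (x (Sum.inl 0) • fun i => x (Sum.inr (Sum.inl i)))
        (x (Sum.inl 1) • fun j => x (Sum.inr (Sum.inr j))) P := by
      unfold ev2
      rw [← coe_aeval_eq_eval, RingHom.coe_coe, aeval_bind₁, ← coe_aeval_eq_eval, RingHom.coe_coe]
      congr 1
      congr 1
      funext y
      rcases y with y | y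
      · simp
      · simp
    have h3 : eval x R = x (Sum.inl 0) ^ a * x (Sum.inl 1) ^ b *
        ev2 (fun i => x (Sum.inr (Sum.inl i))) (fun j => x (Sum.inr (Sum.inr j))) P := by
      unfold ev2
      simp only [R, map_mul, map_pow, eval_X, eval_rename]
      congr 2
      congr 1
      funext y
      rcases y with y | y <;> rfl
    rw [h2, h3, h1]
  let x : Fin 2 ⊕ (Fin (N + 1) ⊕ Fin (n + 1)) → K :=
    Sum.elim (fun i => if i = 0 then s else t) (Sum.elim z w)
  have h4 := congrArg (aeval x) hLR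
  have h5 : aeval x L = LG.evK (s • z) (t • w) P := by
    unfold LG.evK
    simp only [L]
    rw [aeval_bind₁]
    congr 1
    congr 1
    funext y
    rcases y with y | y
    · simp [x]
    · simp [x]
  have h6 : aeval x R = s ^ a * t ^ b * LG.evK z w P := by
    unfold LG.evK
    simp only [R, map_mul, map_pow, aeval_X, aeval_rename]
    congr 2
  rw [← h5, ← h6]
  exact h4

section

variable {X D : BiSet N n} {z : Fin (N + 1) → K} {b : Fin (n + 1) → K}

/-- normalised coordinates -/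
theorem mem_norm (h : ∀ P ∈ X.I, evK z b P = 0) {i0 : Fin (N + 1)} {j0 : Fin (n + 1)}
    (P : BiPoly N n) (hP : P ∈ X.I) :
    evK (fun i => z i / z i0) (fun j => b j / b j0) P = 0 := by
  obtain ⟨c, d, hcd⟩ := BiHom.evK (K := K) (X.hom P hP)
  have e1 : (fun i => z i / z i0) = (z i0)⁻¹ • z := by
    funext i
    rw [Pi.smul_apply, smul_eq_mul, div_eq_inv_mul]
  have e2 : (fun j => b j / b j0) = (b j0)⁻¹ • b := by
    funext i
    rw [Pi.smul_apply, smul_eq_mul, div_eq_inv_mul]
  rw [e1, e2, hcd, h P hP, mul_zero]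

/-- **Nullstellensatz.** Let `I` be a prime ideal which contains the equations of `X` and
`x i0 = 1`, `y j0 = 1`. -/
theorem exists_pt {I : Ideal (BiPoly N n)} (hI : I.IsPrime) (hX : ∀ P ∈ X.I, P ∈ I)
    {i0 : Fin (N + 1)} {j0 : Fin (n + 1)} (hi : MvPolynomial.X (Sum.inl i0) - 1 ∈ I)
    (hj : MvPolynomial.X (Sum.inr j0) - 1 ∈ I) {Q : BiPoly N n} (hQ : Q ∉ I) :
    ∃ u v, X.Mem u v ∧ ev2 u v Q ≠ 0 ∧ ∀ A ∈ I, ev2 u v A = 0 := by
  have h1 : Q ∉ vanishingIdeal ℂ (zeroLocus ℂ I) := by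
    rw [IsPrime.vanishingIdeal_zeroLocus I]
    exact hQ
  rw [mem_vanishingIdeal_iff] at h1
  push Not at h1
  obtain ⟨x, hx, hxQ⟩ := h1
  rw [mem_zeroLocus_iff] at hx
  have he : ∀ A : BiPoly N n, ev2 (fun i => x (Sum.inl i)) (fun j => x (Sum.inr j)) A =
      aeval x A := by
    intro A
    unfold ev2
    rw [← coe_aeval_eq_eval, RingHom.coe_coe]
    congr 1
    congr 1
    funext y
    rcases y with y | y <;> rfl
  refine ⟨fun i => x (Sum.inl i), fun j => x (Sum.inr j), ⟨?_, ?_, ?_⟩, ?_, ?_⟩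
  · intro h0
    have h2 := hx _ hi
    rw [map_sub, aeval_X, map_one] at h2
    have h3 := congrFun h0 i0
    simp only [Pi.zero_apply] at h3
    rw [h3] at h2
    norm_num at h2
  · intro h0
    have h2 := hx _ hj
    rw [map_sub, aeval_X, map_one] at h2
    have h3 := congrFun h0 j0
    simp only [Pi.zero_apply] at h3
    rw [h3] at h2
    norm_num at h2
  · intro P hP
    rw [he]
    exact hx P (hX P hP)
  · rw [he]
    exact hxQ
  · intro A hA
    rw [he]
    exact hx A hA

/-- polynomials which vanish on `X` vanish at the points with coordinates in `K` -/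
theorem vanish (h : ∀ P ∈ X.I, evK z b P = 0) {i0 : Fin (N + 1)} {j0 : Fin (n + 1)}
    (hi : z i0 ≠ 0) (hj : b j0 ≠ 0) {p : BiPoly N n} (hp : ∀ u v, X.Mem u v → ev2 u v p = 0) :
    evK (fun i => z i / z i0) (fun j => b j / b j0) p = 0 := by
  by_contra hcon
  let φ : BiPoly N n →+* K := (aeval (Sum.elim (fun i => z i / z i0)
    (fun j => b j / b j0)) : BiPoly N n →ₐ[ℂ] K)
  obtain ⟨u, v, h1, h2, -⟩ := exists_pt (X := X) (I := RingHom.ker φ) (RingHom.ker_isPrime φ)
    (fun P hP => mem_norm h P hP) (i0 := i0) (j0 := j0) (by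
      change aeval _ _ = _
      rw [map_sub, aeval_X, map_one, Sum.elim_inl, div_self hi, sub_self]) (by
      change aeval _ _ = _
      rw [map_sub, aeval_X, map_one, Sum.elim_inr, div_self hj, sub_self]) (Q := p) hcon
  exact h2 (hp u v h1)

end

/-- values of polynomials at regular coordinates -/
theorem evK_reg {P : Place ℂ K} {z : Fin (N + 1) → K} {b : Fin (n + 1) → K}
    (hz : ∀ i, P.Reg (z i)) (hb : ∀ j, P.Reg (b j)) (A : BiPoly N n) : GO P 0 (evK z b A) := by
  unfold evK
  induction A using MvPolynomial.induction_on with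
  | C a => rw [aeval_C]; exact GO.const a
  | add p q hp hq => rw [map_add]; exact hp.add hq
  | mul_X p i hp =>
    rw [map_mul, aeval_X]
    have h1 : GO P 0 (Sum.elim z b i) := by
      rcases i with i | i
      · exact GO.reg (hz i)
      · exact GO.reg (hb i)
    have h2 := hp.mul h1
    rwa [add_zero] at h2

/-- the polynomials whose value has order at least `c` -/
noncomputable def ordIdeal (P : Place ℂ K) {z : Fin (N + 1) → K} {b : Fin (n + 1) → K}
    (hz : ∀ i, P.Reg (z i)) (hb : ∀ j, P.Reg (b j)) (c : ℕ) : Ideal (BiPoly N n) where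
  carrier := {A | GO P c (evK z b A)}
  zero_mem' := by
    change GO P c (evK z b 0)
    rw [evK_zero]
    exact GO.zero _
  add_mem' := by
    intro A B hA hB
    change GO P c (evK z b (A + B))
    rw [evK_add]
    exact GO.add hA hB
  smul_mem' := by
    intro A B hB
    change GO P c (evK z b (A * B))
    rw [evK_mul]
    have h := (evK_reg hz hb A).mul hB
    rwa [zero_add] at h

theorem mem_ordIdeal {P : Place ℂ K} {z : Fin (N + 1) → K} {b : Fin (n + 1) → K}
    {hz : ∀ i, P.Reg (z i)} {hb : ∀ j, P.Reg (b j)} {c : ℕ} {A : BiPoly N n} :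
    A ∈ ordIdeal P hz hb c ↔ GO P c (evK z b A) := Iff.rfl

theorem ordIdeal_pow {P : Place ℂ K} {z : Fin (N + 1) → K} {b : Fin (n + 1) → K}
    {hz : ∀ i, P.Reg (z i)} {hb : ∀ j, P.Reg (b j)} (m : ℕ) :
    ordIdeal P hz hb 1 ^ m ≤ ordIdeal P hz hb m := by
  induction m with
  | zero =>
    intro A _
    rw [mem_ordIdeal, Nat.cast_zero]
    exact evK_reg hz hb A
  | succ m ih =>
    rw [pow_succ, Ideal.mul_le]
    intro A hA B hB
    rw [mem_ordIdeal, evK_mul]
    have h1 := (mem_ordIdeal.mp (ih hA)).mul (mem_ordIdeal.mp hB)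
    push_cast at h1 ⊢
    exact h1

theorem ordIdeal_prime {P : Place ℂ K} {z : Fin (N + 1) → K} {b : Fin (n + 1) → K}
    {hz : ∀ i, P.Reg (z i)} {hb : ∀ j, P.Reg (b j)} : (ordIdeal P hz hb 1).IsPrime := by
  have hnot : ∀ A, A ∉ ordIdeal P hz hb 1 ↔ evK z b A ≠ 0 ∧ P.ord (evK z b A) = 0 := by
    intro A
    rw [mem_ordIdeal]
    have h1 := evK_reg hz hb A
    unfold GO at h1 ⊢
    constructor
    · intro h
      push Not at h
      refine ⟨h.1, ?_⟩
      have h2 := h1.resolve_left h.1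
      have h3 := h.2
      have h4 : (0 : ℤ) ≤ P.ord (evK z b A) := by exact_mod_cast h2
      have h5 : P.ord (evK z b A) < 1 := by exact_mod_cast h3
      omega
    · rintro ⟨h2, h3⟩
      push Not
      refine ⟨h2, ?_⟩
      rw [h3]
      norm_num
  constructor
  · rw [Ideal.ne_top_iff_one, hnot]
    have : evK z b (1 : BiPoly N n) = 1 := map_one _
    rw [this]
    exact ⟨one_ne_zero, P.ord_one⟩
  · intro A B hAB
    by_contra hcon
    push Not at hcon
    obtain ⟨hA, hB⟩ := hcon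
    rw [hnot] at hA hB
    refine (hnot (A * B)).mpr ?_ hAB
    rw [evK_mul]
    exact ⟨mul_ne_zero hA.1 hB.1, by rw [P.ord_mul hA.1 hB.1, hA.2, hB.2, add_zero]⟩

theorem not_mem_ordIdeal {P : Place ℂ K} {z : Fin (N + 1) → K} {b : Fin (n + 1) → K}
    {hz : ∀ i, P.Reg (z i)} {hb : ∀ j, P.Reg (b j)} {A : BiPoly N n} :
    A ∉ ordIdeal P hz hb 1 ↔ evK z b A ≠ 0 ∧ P.ord (evK z b A) = 0 := by
  rw [mem_ordIdeal]
  have h1 := evK_reg hz hb A
  unfold GO at h1 ⊢
  constructor
  · intro h
    push Not at h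
    refine ⟨h.1, ?_⟩
    have h2 := h1.resolve_left h.1
    have h3 := h.2
    have h4 : (0 : ℤ) ≤ P.ord (evK z b A) := by exact_mod_cast h2
    have h5 : P.ord (evK z b A) < 1 := by exact_mod_cast h3
    omega
  · rintro ⟨h2, h3⟩
    push Not
    refine ⟨h2, ?_⟩
    rw [h3]
    norm_num

/-- Near the points of `X - D` the linear form `a` is in the `m`-th power of an ideal of functions
which vanish at its zeros. -/
def RamAt (m : ℕ) (a : Fin (n + 1) → ℂ) (X D : BiSet N n) : Prop :=
  ∀ u v, QMem X D u v → ∃ (A F : BiPoly N n) (I : Ideal (BiPoly N n)), ev2 u v A ≠ 0 ∧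
    F ∈ I ^ m ∧ (∀ u' v', X.Mem u' v' → ev2 u' v' A * ∑ j, a j * v' j = ev2 u' v' F) ∧
    ∀ G ∈ I, ∀ u' v', X.Mem u' v' → ∑ j, a j * v' j = 0 → ev2 u' v' G = 0

/-- **Multiplicities at the places with centre in `X - D`.** -/
theorem mult {X D : BiSet N n} {z : Fin (N + 1) → K} {b : Fin (n + 1) → K}
    (h : ∀ P ∈ X.I, evK z b P = 0) {m : ℕ} {a : Fin (n + 1) → ℂ} (hR : RamAt m a X D)
    {P : Place ℂ K} (hP : Centred D P z b) : Mu P m a b := by
  obtain ⟨i0, j0, hi0, hj0, hz, hb, Q, hQD, hQ0, hQord⟩ := hP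
  have hXI : ∀ A ∈ X.I, A ∈ ordIdeal P hz hb 1 := fun A hA => by
    rw [mem_ordIdeal, mem_norm h A hA]
    exact GO.zero _
  have hi : MvPolynomial.X (Sum.inl i0) - 1 ∈ ordIdeal P hz hb 1 := by
    rw [mem_ordIdeal]
    have : evK (fun i => z i / z i0) (fun j => b j / b j0)
        (MvPolynomial.X (Sum.inl i0) - 1 : BiPoly N n) = 0 := by
      unfold evK
      rw [map_sub, aeval_X, map_one, Sum.elim_inl, div_self hi0, sub_self]
    rw [this]
    exact GO.zero _
  have hj : MvPolynomial.X (Sum.inr j0) - 1 ∈ ordIdeal P hz hb 1 := by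
    rw [mem_ordIdeal]
    have : evK (fun i => z i / z i0) (fun j => b j / b j0)
        (MvPolynomial.X (Sum.inr j0) - 1 : BiPoly N n) = 0 := by
      unfold evK
      rw [map_sub, aeval_X, map_one, Sum.elim_inr, div_self hj0, sub_self]
    rw [this]
    exact GO.zero _
  obtain ⟨u, v, h1, h2, h3⟩ := exists_pt ordIdeal_prime hXI hi hj
    (not_mem_ordIdeal.mpr ⟨hQ0, hQord⟩)
  obtain ⟨A, F, I, hA, hF, hAF, hI⟩ := hR u v ⟨h1, fun hd => h2 (hd.2.2 Q hQD)⟩
  have hA1 : A ∉ ordIdeal P hz hb 1 := fun hA1 => hA (h3 A hA1)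
  rw [not_mem_ordIdeal] at hA1
  have hAF' : evK (fun i => z i / z i0) (fun j => b j / b j0) A *
      lf a (fun j => b j / b j0) = evK (fun i => z i / z i0) (fun j => b j / b j0) F := by
    have h4 := vanish h hi0 hj0 (p := A * linB a - F) (fun u' v' h' => by
      have h5 := hAF u' v' h'
      have h6 : ev2 u' v' (A * linB a - F) = ev2 u' v' A * ev2 u' v' (linB a) - ev2 u' v' F := by
        unfold ev2
        rw [map_sub, map_mul]
      rw [h6, ev2_linB, h5, sub_self])
    rw [evK_sub, evK_mul, evK_linB] at h4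
    exact sub_eq_zero.mp h4
  have hlf : lf a (fun j => b j / b j0) = lf a b / b j0 := by
    unfold lf
    rw [Finset.sum_div]
    exact Finset.sum_congr rfl fun j _ => by rw [mul_div_assoc]
  intro j1 hj1 hmin
  have hord : P.ord (b j1) = P.ord (b j0) := by
    apply le_antisymm
    · exact (hmin j0).resolve_left hj0
    · have h4 := (hb j1).resolve_left (div_ne_zero hj1 hj0)
      rw [P.ord_div hj1 hj0] at h4
      omega
  by_cases hl : lf a b = 0
  · exact Or.inl hl
  right
  have hl' : lf a (fun j => b j / b j0) ≠ 0 := by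
    rw [hlf]
    exact div_ne_zero hl hj0
  have hlo : P.ord (lf a (fun j => b j / b j0)) = P.ord (lf a b) - P.ord (b j0) := by
    rw [hlf, P.ord_div hl hj0]
  have hreg := evK_reg (N := N) (z := fun i => z i / z i0) hz hb (linB a)
  rw [evK_linB] at hreg
  have h0 : (0 : ℤ) ≤ P.ord (lf a (fun j => b j / b j0)) := by
    have := hreg.resolve_left hl'
    exact_mod_cast this
  by_cases hpos : P.ord (lf a (fun j => b j / b j0)) = 0
  · left
    rw [hord]
    omega
  right
  have hlinJ : linB a ∈ ordIdeal (N := N) P hz hb 1 := by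
    rw [mem_ordIdeal, evK_linB]
    right
    have : (1 : ℤ) ≤ P.ord (lf a (fun j => b j / b j0)) := by omega
    exact_mod_cast this
  have hIJ : I ≤ ordIdeal P hz hb 1 := by
    intro G hG
    by_contra hcon
    obtain ⟨u', v', g1, g2, g3⟩ := exists_pt ordIdeal_prime hXI hi hj hcon
    have g4 := g3 _ hlinJ
    rw [ev2_linB] at g4
    exact g2 (hI G hG u' v' g1 g4)
  have hFm : GO P m (evK (fun i => z i / z i0) (fun j => b j / b j0) F) :=
    mem_ordIdeal.mp (ordIdeal_pow m (Ideal.pow_right_mono hIJ m hF))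
  rw [← hAF'] at hFm
  have h5 := hFm.resolve_left (mul_ne_zero hA1.1 hl')
  rw [P.ord_mul hA1.1 hl', hA1.2, zero_add, hlo] at h5
  have h6 : (m : ℤ) ≤ P.ord (lf a b) - P.ord (b j0) := by exact_mod_cast h5
  rw [hord]
  omega

end Pool.Agent.V8H90.LG
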